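import Pool.Agent.TH38.CX.Main
import Pool.Agent.TH98.ZT.Bound

/-!
The involutions of the integral group ring and of the reduced group `C*`-algebra.
-/

set_option autoImplicit false

open scoped Matrix ENNReal

namespace Pool.Agent.L0h31.ZB

open Pool.Agent.H919R4.ZS
open Pool.Agent.TH38.CX.Cond (redSet isClosed_redSet gen_mem)

noncomputable section

variable {G : Type} [Group G]

/-- the involution `∑ a_g g ↦ ∑ a_g g⁻¹` of the integral group ring -/
def iv : MonoidAlgebra ℤ G →+ MonoidAlgebra ℤ G :=
  MonoidAlgebra.liftNC (Int.castAddHom (MonoidAlgebra ℤ G)) (fun g : G => MonoidAlgebra.single g⁻¹ 1)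

lemma iv_single (g : G) (r : ℤ) :
    iv (MonoidAlgebra.single g r) = (MonoidAlgebra.single g⁻¹ r : MonoidAlgebra ℤ G) := by
  rw [iv, MonoidAlgebra.liftNC_single]
  change ((r : ℤ) : MonoidAlgebra ℤ G) * MonoidAlgebra.single g⁻¹ 1 = _
  rw [← zsmul_eq_mul, MonoidAlgebra.smul_single]
  simp

lemma iv_iv (a : MonoidAlgebra ℤ G) : iv (iv a) = a := by
  refine MonoidAlgebra.induction_linear a ?_ ?_ ?_
  · rw [map_zero, map_zero]
  · intro x y hx hy
    rw [map_add, map_add, hx, hy]
  · intro g r
    rw [iv_single, iv_single, inv_inv]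

lemma iv_mul (a b : MonoidAlgebra ℤ G) : iv (a * b) = iv b * iv a := by
  refine MonoidAlgebra.induction_linear a ?_ ?_ ?_
  · rw [zero_mul, map_zero, mul_zero]
  · intro x y hx hy
    rw [add_mul, map_add, hx, hy, map_add, mul_add]
  · intro g r
    refine MonoidAlgebra.induction_linear b ?_ ?_ ?_
    · rw [mul_zero, map_zero, zero_mul]
    · intro x y hx hy
      rw [mul_add, map_add, hx, hy, map_add, add_mul]
    · intro h s
      rw [MonoidAlgebra.single_mul_single, iv_single, iv_single, iv_single,
        MonoidAlgebra.single_mul_single, mul_inv_rev, mul_comm r s]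

/-- adjoints of elements of `C*_r(G)` -/
lemma adj_mem (T : L2 G →L[ℂ] L2 G) (hT : T ∈ redSet G) :
    ContinuousLinearMap.adjoint T ∈ redSet G := by
  let A : Subring (L2 G →L[ℂ] L2 G) :=
    { carrier := {T | ContinuousLinearMap.adjoint T ∈ redSet G}
      mul_mem' := by
        intro a b ha hb
        change ContinuousLinearMap.adjoint (a * b) ∈ redSet G
        have h : ContinuousLinearMap.adjoint (a * b) =
            ContinuousLinearMap.adjoint b * ContinuousLinearMap.adjoint a :=
          ContinuousLinearMap.adjoint_comp a b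
        rw [h]
        exact Subring.mul_mem (redCstar G : Subring (L2 G →L[ℂ] L2 G)) hb ha
      one_mem' := by
        change ContinuousLinearMap.adjoint (1 : L2 G →L[ℂ] L2 G) ∈ redSet G
        have h : ContinuousLinearMap.adjoint (1 : L2 G →L[ℂ] L2 G) = 1 :=
          ContinuousLinearMap.adjoint_id
        rw [h]
        exact Subring.one_mem (redCstar G : Subring (L2 G →L[ℂ] L2 G))
      add_mem' := by
        intro a b ha hb
        change ContinuousLinearMap.adjoint (a + b) ∈ redSet G
        rw [map_add]
        exact Subring.add_mem (redCstar G : Subring (L2 G →L[ℂ] L2 G)) ha hb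
      zero_mem' := by
        change ContinuousLinearMap.adjoint (0 : L2 G →L[ℂ] L2 G) ∈ redSet G
        rw [map_zero]
        exact Subring.zero_mem (redCstar G : Subring (L2 G →L[ℂ] L2 G))
      neg_mem' := by
        intro a ha
        change ContinuousLinearMap.adjoint (-a) ∈ redSet G
        rw [map_neg]
        exact Subring.neg_mem (redCstar G : Subring (L2 G →L[ℂ] L2 G)) ha }
  have hA : IsClosed (A : Set (L2 G →L[ℂ] L2 G)) :=
    (isClosed_redSet G).preimage (ContinuousLinearMap.adjoint (𝕜 := ℂ) (E := L2 G) (F := L2 G)).continuous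
  have h1 : (redCstar G : Subring (L2 G →L[ℂ] L2 G)) ≤ A := by
    refine Subring.topologicalClosure_minimal _ ?_ hA
    refine Subring.closure_le.2 ?_
    rintro _ ⟨c, g, rfl⟩
    change ContinuousLinearMap.adjoint (c • lregL g) ∈ redSet G
    rw [LinearIsometryEquiv.map_smulₛₗ, Pool.Agent.TH98.ZT.lregL_adjoint]
    exact gen_mem _ _
  exact h1 hT

/-- the involution of `C*_r(G)` -/
def st : RedC G →+ RedC G where
  toFun x := ⟨ContinuousLinearMap.adjoint (valR x), adj_mem _ (Subtype.property x)⟩
  map_zero' := Subtype.ext (by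
    change ContinuousLinearMap.adjoint (valR (0 : RedC G)) = 0
    rw [map_zero, map_zero])
  map_add' x y := Subtype.ext (by
    change ContinuousLinearMap.adjoint (valR (x + y)) =
      ContinuousLinearMap.adjoint (valR x) + ContinuousLinearMap.adjoint (valR y)
    rw [map_add, map_add])

lemma valR_st (x : RedC G) : valR (st x) = ContinuousLinearMap.adjoint (valR x) := rfl

lemma valR_inj {x y : RedC G} (h : valR x = valR y) : x = y := Subtype.ext h

lemma st_st (x : RedC G) : st (st x) = x := by
  apply valR_inj
  rw [valR_st, valR_st, ContinuousLinearMap.adjoint_adjoint]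

lemma st_mul (x y : RedC G) : st (x * y) = st y * st x := by
  apply valR_inj
  have h1 : valR (x * y) = valR x * valR y := map_mul valR x y
  have h2 : valR (st y * st x) = valR (st y) * valR (st x) := map_mul valR _ _
  rw [valR_st, h1, h2, valR_st, valR_st]
  exact ContinuousLinearMap.adjoint_comp _ _

lemma st_toRed (a : MonoidAlgebra ℤ G) : st (toRed G a) = toRed G (iv a) := by
  refine MonoidAlgebra.induction_linear a ?_ ?_ ?_
  · rw [map_zero, map_zero, map_zero, map_zero]
  · intro x y hx hy
    rw [map_add, map_add, map_add, map_add, hx, hy]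
  · intro g r
    apply valR_inj
    rw [valR_st, iv_single, coe_toRed, coe_toRed, L_single, L_single, ← Int.cast_smul_eq_zsmul ℂ r,
      ← Int.cast_smul_eq_zsmul ℂ r, LinearIsometryEquiv.map_smulₛₗ,
      Pool.Agent.TH98.ZT.lregL_adjoint]
    simp

end

end Pool.Agent.L0h31.ZB
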