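import Pool.Agent.L0h31.ZB.Z9
import Pool.Agent.N453.ZS.Main
import Pool.Agent.N453.ZS.Tor

/-!
Poincaré duality groups of dimension at most three are not acyclic.
-/

set_option autoImplicit false

namespace Pool.Agent.L0h31.ZB

open Pool.Agent.H919R4.ZS (FinRes toRed)
open Pool.Agent.N453.ZS (PolyZ)

theorem small_pd {G : Type} [Group G] (X : FinRes G) (n : ℕ) (h : PDim X n) (hn : n ≤ 3) :
    ∃ i, Nontrivial (X.homology (toRed G) i) := by
  obtain ⟨i, -, hi⟩ : ∃ i ≤ 2, Nontrivial (X.homology (toRed G) i) := by
    rcases Nat.lt_or_ge n 3 with h2 | h2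
    · exact Pool.Agent.N453.ZS.main X n h.low h.top ⊥ 0 PolyZ.bot (by omega)
    · rcases subsingleton_or_nontrivial G with hG | hG
      · exact Pool.Agent.N453.ZS.finite_case X (D := ⊥) Pool.Agent.N453.ZS.amenable_bot inferInstance
      · obtain ⟨g, hg⟩ := exists_ne (1 : G)
        refine Pool.Agent.N453.ZS.main X n h.low h.top _ 1 (PolyZ.step g PolyZ.bot ?_ ?_) (by omega)
        · exact (Subgroup.mem_normalizer_iff).2 fun h => by
            rw [Subgroup.mem_bot, Subgroup.mem_bot]
            constructor
            · rintro rfl; simp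
            · intro h3
              rw [mul_inv_eq_one] at h3
              exact mul_eq_left.1 h3
        · intro m hm
          exact Pool.Agent.N453.ZS.zpow_ne_one X hg m (Subgroup.mem_bot.1 hm)
  exact ⟨i, hi⟩

end Pool.Agent.L0h31.ZB
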