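import Pool.Agent.L0h31.ZB.Z9

/-!
A Poincaré duality group among the stabilisers of the vertices.
-/

set_option autoImplicit false
set_option linter.unusedSectionVars false

open scoped Matrix

namespace Pool.Agent.L0h31.ZB

open Pool.Agent.H919R4.ZS
open Pool.Agent.TH38.CX
open Pool.Agent.TH38.ZT (ExAt exAt_iff ex_indep ex_comp)

/-- The group `G` acts on the acyclic complex `Y` with finitely many orbits of `i`-cells,
represented by `rep i a`, `a < c i`, and the stabiliser of `rep i a` has the finite free resolution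
`X i a`. -/
structure Action (G : Type) [Group G] where
  Y : AcyclicGComplex G
  c : ℕ → ℕ
  rep : ∀ i, Fin (c i) → Y.E i
  hrep : ∀ i (e : Y.E i), ∃! a, e ∈ MulAction.orbit G (rep i a)
  X : ∀ i a, FinRes (MulAction.stabilizer G (rep i a))

/-- `H_i(G; C*_r(G)) ≠ 0` for some `i`, for the group `G` with the finite free resolution `X`. -/
def NonAcyclic {G : Type} [Group G] (X : FinRes G) : Prop :=
  ∃ i, Nontrivial (X.homology (toRed G) i)

/-- one Poincaré duality group among the stabilisers of the vertices -/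
theorem vertex_pd2 {G : Type} [Group G] (A : Action G) (a₀ : Fin (A.c 0)) (m j t : ℕ)
    (hm : PDim (A.X 0 a₀) m) (hj : Nontrivial ((A.X 0 a₀).homology (toRed _) j))
    (ht : t + j ≤ m ∨ 2 * t ≤ m + 1)
    (h : ∀ i, 1 ≤ i → ∀ b, (A.X i b).len + i ≤ t ∨ ∃ m', PDim (A.X i b) m' ∧
      ∀ l, l + t < m' + i → Subsingleton ((A.X i b).homology (toRed _) l)) :
    Nonempty (FinRes G) ∧ ∀ X' : FinRes G, NonAcyclic X' := by
  classical
  have hex : ∃ j, ¬ ExAt (A.X 0 a₀) (toRed _) j := ⟨j, (not_ex_iff _ _).2 hj⟩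
  obtain ⟨j', h1, h2⟩ : ∃ j', ¬ ExAt (A.X 0 a₀) (toRed _) j' ∧
      ∀ l < j', ExAt (A.X 0 a₀) (toRed _) l :=
    ⟨Nat.find hex, Nat.find_spec hex, fun l hl => not_not.1 (Nat.find_min hex hl)⟩
  have h3 : j' ≤ j := by
    by_contra hcon
    exact (not_ex_iff _ _).2 hj (h2 j (by omega))
  have h4 := half_le (A.X 0 a₀) m hm j' h1 h2
  refine coh_main A.Y A.c A.rep A.hrep A.X (m - j') a₀
    (not_co _ m hm (m - j') j' (by omega) h1) ?_
  intro i hi b q hq
  rcases h i hi b with h5 | ⟨m', h5, h6⟩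
  · exact coEx_of_len _ _ q (by omega)
  · rcases Nat.lt_or_ge m' q with h7 | h7
    · exact coEx_of_len _ _ q (lt_of_le_of_lt h5.len h7)
    · refine (pd_co _ m' h5.len h5.low h5.top q (m' - q) (by omega)).1 fun l hl => ?_
      rw [exAt_iff]
      exact h6 l (by omega)

end Pool.Agent.L0h31.ZB
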