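import Pool.Agent.L0h31.ZB.Z1

/-!
The dual of a finite free resolution.
-/

set_option autoImplicit false
set_option linter.unusedSectionVars false

open scoped Matrix ENNReal

namespace Pool.Agent.L0h31.ZB

open Pool.Agent.H919R4.ZS
open Pool.Agent.TH38.CX (Res ExR)
open Pool.Agent.TH38.ZT (ExAt exAt_iff)

noncomputable section

variable {G : Type} [Group G] (X : FinRes G) (m : ℕ)

/-- the basis of the dual complex in degree `j` -/
abbrev dι (j : ℕ) : Type := Σ i : {i : ℕ // i + j = m}, Fin (X.n i.1)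

instance (j : ℕ) : Subsingleton {i : ℕ // i + j = m} :=
  ⟨fun a b => Subtype.ext (by have := a.2; have := b.2; omega)⟩

instance (j : ℕ) : Fintype {i : ℕ // i + j = m} := Fintype.ofFinite _

/-- the differentials of the dual complex -/
def dd (j : ℕ) : Matrix (dι X m (j + 1)) (dι X m j) (MonoidAlgebra ℤ G) := fun a b =>
  iv (X.d a.1.1 (Fin.cast (congrArg X.n (by have := a.1.2; have := b.1.2; omega)) b.2) a.2)

section vec

variable {S : Type} [Ring S]

/-- the component at `i` -/
def at' {j : ℕ} (x : dι X m j → S) (i : ℕ) (h : i + j = m) : Fin (X.n i) → S :=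
  fun a => x ⟨⟨i, h⟩, a⟩

/-- the vector with a given component -/
def mk' {j : ℕ} (i : ℕ) (h : i + j = m) (c : Fin (X.n i) → S) : dι X m j → S :=
  fun k => c (Fin.cast (congrArg X.n (by have := k.1.2; omega)) k.2)

lemma at_mk {j : ℕ} (i : ℕ) (h : i + j = m) (c : Fin (X.n i) → S) :
    at' X m (mk' X m (j := j) i h c) i h = c := by
  funext a
  rfl

lemma at_inj {j : ℕ} (i : ℕ) (h : i + j = m) {x y : dι X m j → S}
    (hxy : at' X m x i h = at' X m y i h) : x = y := by
  funext k
  obtain ⟨⟨i', h'⟩, a⟩ := k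
  obtain rfl : i' = i := by omega
  exact congrFun hxy a

lemma empty_of_lt {j : ℕ} (h : m < j) : IsEmpty (dι X m j) :=
  ⟨fun k => by have := k.1.2; omega⟩

lemma sum_dι {M : Type*} [AddCommMonoid M] {j : ℕ} (i : ℕ) (h : i + j = m) (f : dι X m j → M) :
    ∑ k, f k = ∑ a : Fin (X.n i), f ⟨⟨i, h⟩, a⟩ := by
  rw [Fintype.sum_sigma]
  rw [Finset.sum_eq_single (⟨i, h⟩ : {i : ℕ // i + j = m})]
  · intro b _ hb
    exact absurd (Subsingleton.elim _ _) hb
  · intro h1
    exact absurd (Finset.mem_univ _) h1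

variable (φ : MonoidAlgebra ℤ G →+* S) (τ : S →+ S) (hτ : ∀ x, τ (τ x) = x)
  (hτm : ∀ x y, τ (x * y) = τ y * τ x) (hτφ : ∀ a, τ (φ a) = φ (iv a))
include hτ hτm hτφ

lemma at_vec {j : ℕ} (i : ℕ) (h : i + 1 + j = m) (h' : i + (j + 1) = m)
    (x : dι X m (j + 1) → S) :
    at' X m (x ᵥ* (dd X m j).map φ) (i + 1) h =
      fun b => τ (((X.d i).map φ *ᵥ (fun a => τ (at' X m x i h' a))) b) := by
  funext b
  simp only [at', Matrix.vecMul, Matrix.mulVec, dotProduct, map_sum, hτm, hτ]
  rw [sum_dι X m i h']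
  refine Finset.sum_congr rfl fun a _ => ?_
  rw [Matrix.map_apply, Matrix.map_apply, hτφ]
  rfl

lemma vec_zero {j : ℕ} (i : ℕ) (h' : i + (j + 1) = m) (x : dι X m (j + 1) → S) :
    x ᵥ* (dd X m j).map φ = 0 ↔ (X.d i).map φ *ᵥ (fun a => τ (at' X m x i h' a)) = 0 := by
  have h : i + 1 + j = m := by omega
  have h1 := at_vec X m φ τ hτ hτm hτφ i h h' x
  constructor
  · intro hx
    rw [hx] at h1
    funext b
    have h2 := congrFun h1 b
    have h3 := congrArg τ h2
    rw [hτ] at h3
    rw [← h3]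
    exact map_zero τ
  · intro hx
    apply at_inj X m (i + 1) h
    rw [h1, hx]
    funext b
    exact map_zero τ

lemma vec_range {j : ℕ} (i : ℕ) (h : i + 1 + j = m) (x : dι X m j → S) :
    (∃ y, y ᵥ* (dd X m j).map φ = x) ↔
      ∃ c, (X.d i).map φ *ᵥ c = fun a => τ (at' X m x (i + 1) h a) := by
  have h' : i + (j + 1) = m := by omega
  constructor
  · rintro ⟨y, rfl⟩
    refine ⟨fun a => τ (at' X m y i h' a), ?_⟩
    rw [at_vec X m φ τ hτ hτm hτφ i h h' y]
    funext b
    exact (hτ _).symm
  · rintro ⟨c, hc⟩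
    refine ⟨mk' X m i h' (fun a => τ (c a)), ?_⟩
    apply at_inj X m (i + 1) h
    rw [at_vec X m φ τ hτ hτm hτφ i h h', at_mk]
    funext b
    simp only [hτ]
    rw [show (fun a => c a) = c from rfl, hc]
    exact hτ _

omit hτ hτm hτφ in
lemma vec_range_last {j : ℕ} (h : j = m) (x : dι X m j → S) :
    (∃ y, y ᵥ* (dd X m j).map φ = x) ↔ x = 0 := by
  have h1 : IsEmpty (dι X m (j + 1)) := empty_of_lt X m (by omega)
  constructor
  · rintro ⟨y, rfl⟩
    have : y = 0 := Subsingleton.elim _ _
    rw [this, Matrix.zero_vecMul]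
  · rintro rfl
    exact ⟨0, Matrix.zero_vecMul _⟩

end vec

/-! ### exactness after a change of rings -/

section exact

variable {S : Type} [Ring S] (φ : MonoidAlgebra ℤ G →+* S) (τ : S →+ S) (hτ : ∀ x, τ (τ x) = x)
  (hτm : ∀ x y, τ (x * y) = τ y * τ x) (hτφ : ∀ a, τ (φ a) = φ (iv a))
include hτ hτm hτφ

/-- the dual complex is exact in the degree `j` after the change of rings -/
def DEx (j : ℕ) : Prop :=
  match j with
  | 0 => ∀ x : dι X m 0 → S, ∃ y, y ᵥ* (dd X m 0).map φ = x
  | j + 1 => ∀ x : dι X m (j + 1) → S, x ᵥ* (dd X m j).map φ = 0 →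
      ∃ y, y ᵥ* (dd X m (j + 1)).map φ = x

theorem dual_exact (hlen : X.len ≤ m) (hX : ∀ i, ExAt X φ i) (j : ℕ) : DEx X m φ j := by
  obtain ⟨s, hs0, hs⟩ := Pool.Agent.TH38.ZT.contraction' X φ m fun i _ => hX i
  have hs0' : ∀ c : Fin (X.n 0) → S, s 0 *ᵥ ((X.d 0).map φ *ᵥ c) = c := by
    intro c
    rw [Matrix.mulVec_mulVec, hs0, Matrix.one_mulVec]
  have hs' : ∀ i, i + 1 ≤ m → ∀ c : Fin (X.n (i + 1)) → S, (X.d (i + 1)).map φ *ᵥ c = 0 →
      (X.d i).map φ *ᵥ (s i *ᵥ c) = c := by
    intro i hi c hc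
    have h1 : ((X.d i).map φ * s i + s (i + 1) * (X.d (i + 1)).map φ) *ᵥ c = c := by
      rw [hs i hi, Matrix.one_mulVec]
    rw [Matrix.add_mulVec, ← Matrix.mulVec_mulVec, ← Matrix.mulVec_mulVec, hc,
      Matrix.mulVec_zero, add_zero] at h1
    exact h1
  -- all columns in degree `m` are cocycles
  have htop : ∀ c : Fin (X.n m) → S, (X.d m).map φ *ᵥ c = 0 := by
    intro c
    have h1 : IsEmpty (Fin (X.n (m + 1))) := by
      rw [X.n_eq_zero (m + 1) (by omega)]
      infer_instance
    exact funext fun b => h1.elim b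
  have key : ∀ (i : ℕ) (c : Fin (X.n i) → S), i ≤ m → (X.d i).map φ *ᵥ c = 0 →
      (i = 0 → c = 0) ∧ ∀ i', i = i' + 1 → ∃ c', ∀ h : i = i' + 1,
        (X.d i').map φ *ᵥ c' = fun a => c (Fin.cast (congrArg X.n h.symm) a) := by
    intro i c hi hc
    refine ⟨?_, ?_⟩
    · rintro rfl
      rw [← hs0' c, hc, Matrix.mulVec_zero]
    · rintro i' rfl
      exact ⟨s i' *ᵥ c, fun _ => hs' i' hi c hc⟩
  cases j with
  | zero =>
    intro x
    rcases Nat.eq_zero_or_pos m with hm | hm
    · rw [vec_range_last X m φ hm.symm]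
      apply at_inj X m 0 (by omega)
      have h1 := (key 0 (fun a => τ (at' X m x 0 (by omega) a)) (by omega) (by
        have h2 := htop
        subst hm
        exact h2 _)).1 rfl
      funext a
      have h3 := congrArg τ (congrFun h1 a)
      rw [hτ] at h3
      rw [h3]
      exact map_zero τ
    · obtain ⟨i, hi⟩ : ∃ i, m = i + 1 := ⟨m - 1, by omega⟩
      rw [vec_range X m φ τ hτ hτm hτφ i (by omega)]
      obtain ⟨c', hc'⟩ := (key (i + 1) (fun a => τ (at' X m x (i + 1) (by omega) a)) (by omega) (by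
        have h2 := htop
        subst hi
        exact h2 _)).2 i rfl
      exact ⟨c', hc' rfl⟩
  | succ j =>
    intro x hx
    rcases Nat.lt_or_ge m (j + 1) with hj | hj
    · have h1 : IsEmpty (dι X m (j + 1)) := empty_of_lt X m hj
      exact ⟨0, Subsingleton.elim _ _⟩
    · obtain ⟨i, hi⟩ : ∃ i, i + (j + 1) = m := ⟨m - (j + 1), by omega⟩
      rw [vec_zero X m φ τ hτ hτm hτφ i hi] at hx
      have hk := key i _ (by omega) hx
      cases i with
      | zero =>
        rw [vec_range_last X m φ (by omega)]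
        have h1 := hk.1 rfl
        apply at_inj X m 0 hi
        funext a
        have h3 := congrArg τ (congrFun h1 a)
        rw [hτ] at h3
        rw [h3]
        exact map_zero τ
      | succ i =>
        rw [vec_range X m φ τ hτ hτm hτφ i (by omega)]
        obtain ⟨c', hc'⟩ := hk.2 i rfl
        exact ⟨c', hc' rfl⟩

end exact

/-! ### the dual resolution -/

section res

variable {M : Type} [AddCommGroup M] [Module (MonoidAlgebra ℤ G) M]
  (p : (Fin (X.n m) → MonoidAlgebra ℤ G) →+ M)

/-- the values of the augmentation -/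
def daug (k : dι X m 0) : M :=
  p (fun b => if (b : ℕ) = (k.2 : ℕ) then 1 else 0)

lemma smul_p (hp : ∀ (g : G) (y : Fin (X.n m) → MonoidAlgebra ℤ G),
    p (fun b => y b * MonoidAlgebra.single g⁻¹ 1) = (MonoidAlgebra.single g 1 : MonoidAlgebra ℤ G) • p y)
    (a : MonoidAlgebra ℤ G) (y : Fin (X.n m) → MonoidAlgebra ℤ G) :
    a • p y = p (fun b => y b * iv a) := by
  refine MonoidAlgebra.induction_linear a ?_ ?_ ?_
  · rw [zero_smul, map_zero]
    have : (fun b => y b * (0 : MonoidAlgebra ℤ G)) = 0 := funext fun b => mul_zero _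
    rw [this, map_zero]
  · intro u v hu hv
    have h : (fun b => y b * iv (u + v)) = (fun b => y b * iv u) + (fun b => y b * iv v) :=
      funext fun b => by rw [map_add, mul_add]; rfl
    rw [add_smul, hu, hv, h, map_add]
  · intro g r
    have e1 : (MonoidAlgebra.single g r : MonoidAlgebra ℤ G) =
        r • (MonoidAlgebra.single g 1 : MonoidAlgebra ℤ G) := by
      rw [MonoidAlgebra.smul_single]
      simp
    have e2 : (r • (MonoidAlgebra.single g 1 : MonoidAlgebra ℤ G)) • p y =
        r • ((MonoidAlgebra.single g 1 : MonoidAlgebra ℤ G) • p y) := by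
      rw [smul_assoc]
    have e3 : (fun b => y b * iv (r • (MonoidAlgebra.single g 1 : MonoidAlgebra ℤ G))) =
        r • fun b => y b * (MonoidAlgebra.single g⁻¹ 1 : MonoidAlgebra ℤ G) :=
      funext fun b => by
        rw [map_zsmul, iv_single]
        exact mul_smul_comm r (y b) _
    rw [e1, e2, ← hp, e3, map_zsmul]

lemma ev_daug (hp : ∀ (g : G) (y : Fin (X.n m) → MonoidAlgebra ℤ G),
    p (fun b => y b * MonoidAlgebra.single g⁻¹ 1) = (MonoidAlgebra.single g 1 : MonoidAlgebra ℤ G) • p y)
    (x : dι X m 0 → MonoidAlgebra ℤ G) :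
    ∑ k, x k • daug X m p k = p (fun b => iv (at' X m x m (Nat.add_zero m) b)) := by
  rw [sum_dι X m m (Nat.add_zero m)]
  simp only [daug, smul_p X m p hp]
  rw [← map_sum]
  congr 1
  funext b
  rw [Finset.sum_apply, Finset.sum_eq_single b]
  · rw [if_pos rfl, one_mul]
    rfl
  · intro a _ hab
    rw [if_neg (fun h => hab (Fin.ext h.symm)), zero_mul]
  · intro h
    exact absurd (Finset.mem_univ b) h

lemma dd_map_id (j : ℕ) : (dd X m j).map (RingHom.id (MonoidAlgebra ℤ G)) = dd X m j := rfl

lemma d_map_id (i : ℕ) : (X.d i).map (RingHom.id (MonoidAlgebra ℤ G)) = X.d i := rfl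

lemma coh_exact {k : ℕ} (h : Subsingleton (X.cohomology k)) (c : Fin (X.n k) → MonoidAlgebra ℤ G) :
    X.d k *ᵥ c = 0 → c ∈ X.coboundaries k := by
  intro hc
  have h1 : ((⟨c, hc⟩ : (X.cobd k).ker) : X.cohomology k) = 0 := Subsingleton.elim _ _
  rw [QuotientAddGroup.eq_zero_iff] at h1
  exact h1

/-- the dual resolution -/
def dualRes (hcoh : ∀ k < m, Subsingleton (X.cohomology k)) (hp1 : Function.Surjective p)
    (hp2 : ∀ y, p y = 0 ↔ y ∈ X.coboundaries m)
    (hp3 : ∀ (g : G) (y : Fin (X.n m) → MonoidAlgebra ℤ G),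
      p (fun b => y b * MonoidAlgebra.single g⁻¹ 1) =
        (MonoidAlgebra.single g 1 : MonoidAlgebra ℤ G) • p y) : Res G M where
  ι := dι X m
  fin := fun _ => inferInstance
  d := dd X m
  aug := daug X m p
  surj := by
    intro v
    obtain ⟨y, rfl⟩ := hp1 v
    refine ⟨mk' X m m (Nat.add_zero m) (fun b => iv (y b)), ?_⟩
    rw [ev_daug X m p hp3, at_mk]
    simp only [iv_iv]
  exact_zero := by
    intro x
    rw [ev_daug X m p hp3, hp2]
    rcases Nat.eq_zero_or_pos m with hm | hm
    · subst hm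
      have h1 := vec_range_last X 0 (RingHom.id (MonoidAlgebra ℤ G)) rfl x
      rw [dd_map_id] at h1
      rw [h1]
      change (fun b => iv (at' X 0 x 0 (Nat.add_zero 0) b)) = 0 ↔ x = 0
      constructor
      · intro h2
        apply at_inj X 0 0 rfl
        funext a
        have h3 := congrArg iv (congrFun h2 a)
        rw [iv_iv] at h3
        rw [h3]
        exact map_zero iv
      · rintro rfl
        funext b
        exact map_zero iv
    · obtain ⟨i, rfl⟩ : ∃ i, m = i + 1 := ⟨m - 1, by omega⟩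
      have h1 := vec_range X (i + 1) (RingHom.id (MonoidAlgebra ℤ G)) iv iv_iv iv_mul
        (fun _ => rfl) i (Nat.add_zero _) x
      rw [dd_map_id, d_map_id] at h1
      rw [h1]
      rfl
  exact_succ := by
    intro j x
    rcases Nat.lt_or_ge m (j + 1) with hj | hj
    · have h1 : IsEmpty (dι X m (j + 1)) := empty_of_lt X m hj
      constructor
      · intro _
        exact ⟨0, Subsingleton.elim _ _⟩
      · intro _
        have : x = 0 := Subsingleton.elim _ _
        rw [this, Matrix.zero_vecMul]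
    · obtain ⟨i, hi⟩ : ∃ i, i + (j + 1) = m := ⟨m - (j + 1), by omega⟩
      have h1 := vec_zero X m (RingHom.id (MonoidAlgebra ℤ G)) iv iv_iv iv_mul (fun _ => rfl) i hi x
      rw [dd_map_id, d_map_id] at h1
      rw [h1]
      have h2 : X.d i *ᵥ (fun a => iv (at' X m x i hi a)) = 0 ↔
          (fun a => iv (at' X m x i hi a)) ∈ X.coboundaries i := by
        constructor
        · exact coh_exact X (hcoh i (by omega)) _
        · intro h
          cases i with
          | zero =>
            have h3 : (fun a => iv (at' X m x 0 hi a)) = 0 := h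
            rw [h3, Matrix.mulVec_zero]
          | succ i =>
            obtain ⟨c, hc⟩ := h
            rw [← hc]
            change X.d (i + 1) *ᵥ (X.d i *ᵥ c) = 0
            rw [Matrix.mulVec_mulVec, d_mul_d, Matrix.zero_mulVec]
      rw [h2]
      cases i with
      | zero =>
        have h3 := vec_range_last X m (RingHom.id (MonoidAlgebra ℤ G)) (j := j + 1) (by omega) x
        rw [dd_map_id] at h3
        rw [h3]
        change (fun a => iv (at' X m x 0 hi a)) = 0 ↔ x = 0
        constructor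
        · intro h2
          apply at_inj X m 0 hi
          funext a
          have h3 := congrArg iv (congrFun h2 a)
          rw [iv_iv] at h3
          rw [h3]
          exact map_zero iv
        · rintro rfl
          funext b
          exact map_zero iv
      | succ i =>
        have h3 := vec_range X m (RingHom.id (MonoidAlgebra ℤ G)) iv iv_iv iv_mul (fun _ => rfl) i
          (j := j + 1) (by omega) x
        rw [dd_map_id, d_map_id] at h3
        rw [h3]
        rfl

end res

end

end Pool.Agent.L0h31.ZB
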