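import Pool.Agent.L0h31.ZB.Z2

/-!
Boundary complexes: complexes of permutation modules whose homology is the cohomology of the group
with coefficients in the group ring.
-/

set_option autoImplicit false
set_option linter.unusedSectionVars false

open scoped Matrix ENNReal

namespace Pool.Agent.L0h31.ZB

open Pool.Agent.H919R4.ZS
open Pool.Agent.TH38.CX
open Pool.Agent.TH38.ZT (ExAt exAt_iff ex_comp ex_indep)

/-- The cellular chain complex of a complex `T` on which the group `G` acts by permuting the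
cells, such that an element which stabilises a cell fixes it pointwise: `E i` is the `G`-set of
`i`-cells (with orientations chosen in a `G`-invariant way), `bd` are the cellular boundary maps. -/
structure GComplex (G : Type) [Group G] where
  /-- the `i`-cells -/
  E : ℕ → Type
  /-- the action of `G` on the `i`-cells -/
  act : ∀ i, MulAction G (E i)
  /-- the cellular boundary map `ℤ[E (i + 1)] → ℤ[E i]` -/
  bd : ∀ i, (E (i + 1) →₀ ℤ) →+ (E i →₀ ℤ)
  /-- the boundary maps commute with the action -/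
  bd_smul : ∀ (i : ℕ) (g : G) (x : E (i + 1) →₀ ℤ),
    bd i (x.mapDomain (fun e => g • e)) = (bd i x).mapDomain (fun e => g • e)

instance {G : Type} [Group G] (T : GComplex G) (i : ℕ) : MulAction G (T.E i) := T.act i

/-- The reduced cycles of `T`: the kernel of the sum of the coefficients in degree `0`, and the
kernel of the boundary map in positive degrees. -/
noncomputable def GComplex.cycles {G : Type} [Group G] (T : GComplex G) :
    ∀ i, AddSubgroup (T.E i →₀ ℤ)
  | 0 => (Finsupp.liftAddHom (fun _ : T.E 0 => AddMonoidHom.id ℤ)).ker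
  | i + 1 => (T.bd i).ker

noncomputable section

variable {G : Type} [Group G]

/-- the boundary maps as linear maps -/
def bdT (T : GComplex G) (i : ℕ) :
    PM G (T.E (i + 1)) →ₗ[MonoidAlgebra ℤ G] PM G (T.E i) :=
  linOfEquiv (T.bd i) (T.bd_smul i)

/-- the modules of cycles -/
def zl (T : GComplex G) : ∀ i, Submodule (MonoidAlgebra ℤ G) (PM G (T.E i))
  | 0 => LinearMap.ker (sumMap (T.E 0))
  | i + 1 => LinearMap.ker (bdT T i)

lemma mem_zl (T : GComplex G) (i : ℕ) (x : T.E i →₀ ℤ) : ofF x ∈ zl T i ↔ x ∈ T.cycles i := by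
  cases i <;> rfl

section levels

variable {S : Type} [Ring S] (φ : MonoidAlgebra ℤ G →+* S) (N i₀ d : ℕ)

theorem ind (T : GComplex G) (h0 : i₀ ≤ N)
    (hex : ∀ i < d, ∀ x : T.E i →₀ ℤ, x ∈ T.cycles i ↔ ∃ y, T.bd i y = x)
    (hM : ∀ i ≤ d, ∃ R : Res G (PM G (T.E i)), HM φ N i₀ i R ∧ Bdd R)
    (htop : ∃ R : Res G (zl T d), QQ φ N i₀ (d + 1) R ∧ Bdd R) :
    ∀ j i, i + j = d → ∃ R : Res G (zl T i), QQ φ N i₀ (i + 1) R ∧ Bdd R := by
  intro j
  induction j with
  | zero =>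
    intro i hi
    obtain rfl : i = d := by omega
    exact htop
  | succ j ih =>
    intro i hi
    obtain ⟨R', hQ', hb'⟩ := ih (i + 1) (by omega)
    obtain ⟨R, hR, hb⟩ := hM (i + 1) (by omega)
    have hmem : ∀ x : PM G (T.E (i + 1)), bdT T i x ∈ zl T i := by
      intro x
      exact (mem_zl T i _).2 ((hex i (by omega) _).2 ⟨toF x, rfl⟩)
    refine step φ N i₀ h0 (i + 1) R' R (zl T (i + 1)).subtype
      ((bdT T i).codRestrict (zl T i) hmem) (Submodule.injective_subtype _) ?_ ?_ hQ' hR hb' hb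
    · rintro ⟨x, hx⟩
      obtain ⟨y, hy⟩ := (hex i (by omega) (toF x)).1 ((mem_zl T i (toF x)).1 hx)
      exact ⟨ofF y, Subtype.ext hy⟩
    · intro x
      constructor
      · intro hx
        have h1 : bdT T i x = 0 := congrArg Subtype.val hx
        exact ⟨⟨x, h1⟩, rfl⟩
      · rintro ⟨⟨x, hx⟩, rfl⟩
        exact Subtype.ext hx

theorem last (T : GComplex G) (hne : Nonempty (T.E 0)) (h0 : i₀ ≤ N)
    (hex : ∀ i < d, ∀ x : T.E i →₀ ℤ, x ∈ T.cycles i ↔ ∃ y, T.bd i y = x)
    (hM : ∀ i ≤ d, ∃ R : Res G (PM G (T.E i)), HM φ N i₀ i R ∧ Bdd R)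
    (htop : ∃ R : Res G (zl T d), QQ φ N i₀ (d + 1) R ∧ Bdd R) :
    ∃ R : Res G (Triv G), ¬ ExR R φ N ∧ Bdd R := by
  obtain ⟨R', hQ', hb'⟩ := ind φ N i₀ d T h0 hex hM htop d 0 (by omega)
  obtain ⟨R, hR, hb⟩ := hM 0 (by omega)
  obtain ⟨e0⟩ := hne
  obtain ⟨R, hR, hbR⟩ := step φ N i₀ h0 0 R' R (zl T 0).subtype
    (sumMap (T.E 0)) (Submodule.injective_subtype _) (by
      intro m
      refine ⟨ofF (Finsupp.single e0 (tv m)), ?_⟩
      change Finsupp.sum (Finsupp.single e0 (tv m)) (fun _ r => r) = tv m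
      exact Finsupp.sum_single_index rfl) (by
      intro x
      constructor
      · intro hx
        exact ⟨⟨x, hx⟩, rfl⟩
      · rintro ⟨⟨x, hx⟩, rfl⟩
        exact hx) hQ' hR hb' hb
  exact ⟨R, hR.2 (Nat.zero_le _), hbR⟩

end levels

/-- the dual resolution is exact after the change of rings if the resolution is -/
theorem exR_dual (X : FinRes G) (m : ℕ) {M : Type} [AddCommGroup M] [Module (MonoidAlgebra ℤ G) M]
    (p : (Fin (X.n m) → MonoidAlgebra ℤ G) →+ M)
    (hcoh : ∀ k < m, Subsingleton (X.cohomology k)) (hp1 : Function.Surjective p)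
    (hp2 : ∀ y, p y = 0 ↔ y ∈ X.coboundaries m)
    (hp3 : ∀ (g : G) (y : Fin (X.n m) → MonoidAlgebra ℤ G),
      p (fun b => y b * MonoidAlgebra.single g⁻¹ 1) =
        (MonoidAlgebra.single g 1 : MonoidAlgebra ℤ G) • p y)
    {S : Type} [Ring S] (φ : MonoidAlgebra ℤ G →+* S) (τ : S →+ S) (hτ : ∀ x, τ (τ x) = x)
    (hτm : ∀ x y, τ (x * y) = τ y * τ x) (hτφ : ∀ a, τ (φ a) = φ (iv a))
    (hlen : X.len ≤ m) (hX : ∀ i, ExAt X φ i) (k : ℕ) :
    ExR (dualRes X m p hcoh hp1 hp2 hp3) φ k := by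
  have h := dual_exact X m φ τ hτ hτm hτφ hlen hX k
  cases k with
  | zero => exact h
  | succ k => exact h

theorem main_boundary (m : ℕ) (X : FinRes G) (hlen : X.len ≤ m)
    (hcoh : ∀ k < m, Subsingleton (X.cohomology k))
    (T : GComplex G) (d : ℕ) (hne : Nonempty (T.E 0))
    (hex : ∀ i < d, ∀ x : T.E i →₀ ℤ, x ∈ T.cycles i ↔ ∃ y, T.bd i y = x)
    (θ : X.cohomology m ≃+ T.cycles d)
    (hθ : ∀ (g : G) (y y' : (X.cobd m).ker),
      (∀ b, y'.1 b = y.1 b * MonoidAlgebra.single g⁻¹ 1) →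
      (θ (QuotientAddGroup.mk y')).1 = (θ (QuotientAddGroup.mk y)).1.mapDomain (fun e => g • e))
    (c : ℕ → ℕ) (rep : ∀ i, Fin (c i) → T.E i)
    (hrep : ∀ i ≤ d, ∀ e : T.E i, ∃! a, e ∈ MulAction.orbit G (rep i a))
    (Y : ∀ i a, FinRes (MulAction.stabilizer G (rep i a)))
    (N i₀ : ℕ) (h0 : i₀ ≤ N) (hi₀ : i₀ ≤ d) (a₀ : Fin (c i₀))
    (h1 : Nontrivial ((Y i₀ a₀).homology (toRed _) (N - i₀)))
    (h2 : ∀ i < i₀, ∀ a, Acyc (Y i a) (N - 1 - i))
    (h3 : ∀ i, i₀ < i → i ≤ d → i ≤ N + 1 → ∀ a, Acyc (Y i a) (N + 1 - i)) :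
    ∃ i ≤ m, Nontrivial (X.homology (toRed G) i) := by
  classical
  by_contra hcon
  push Not at hcon
  have hX : ∀ i, ExAt X (toRed G) i := by
    intro i
    rcases Nat.lt_or_ge m i with hi | hi
    · exact exAt_of_len X _ i (by omega)
    · exact (exAt_iff X _ i).2 (not_nontrivial_iff_subsingleton.1 (by simpa using hcon i hi))
  -- all cochains in degree `m` are cocycles
  have hker : ∀ y : Fin (X.n m) → MonoidAlgebra ℤ G, y ∈ (X.cobd m).ker := by
    intro y
    have h4 : IsEmpty (Fin (X.n (m + 1))) := by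
      rw [X.n_eq_zero (m + 1) (by omega)]
      infer_instance
    exact funext fun b => h4.elim b
  let p : (Fin (X.n m) → MonoidAlgebra ℤ G) →+ zl T d :=
    { toFun := fun y => ⟨ofF (θ (QuotientAddGroup.mk ⟨y, hker y⟩)).1,
        (mem_zl T d _).2 (θ (QuotientAddGroup.mk ⟨y, hker y⟩)).2⟩
      map_zero' := Subtype.ext (by
        have h5 : (QuotientAddGroup.mk ⟨0, hker 0⟩ : X.cohomology m) = 0 := rfl
        change (θ (QuotientAddGroup.mk ⟨0, hker 0⟩)).1 = 0
        rw [h5, map_zero]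
        rfl)
      map_add' := fun y z => Subtype.ext (by
        have h5 : (QuotientAddGroup.mk ⟨y + z, hker (y + z)⟩ : X.cohomology m) =
            QuotientAddGroup.mk ⟨y, hker y⟩ + QuotientAddGroup.mk ⟨z, hker z⟩ := rfl
        change (θ (QuotientAddGroup.mk ⟨y + z, hker (y + z)⟩)).1 =
          (θ (QuotientAddGroup.mk ⟨y, hker y⟩)).1 + (θ (QuotientAddGroup.mk ⟨z, hker z⟩)).1
        rw [h5, map_add]
        rfl) }
  have hp1 : Function.Surjective p := by
    rintro ⟨x, hx⟩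
    obtain ⟨z, hz⟩ := θ.surjective ⟨toF x, (mem_zl T d (toF x)).1 hx⟩
    obtain ⟨y, rfl⟩ := QuotientAddGroup.mk_surjective z
    refine ⟨y.1, Subtype.ext ?_⟩
    change (θ (QuotientAddGroup.mk y)).1 = toF x
    rw [hz]
  have hp2 : ∀ y, p y = 0 ↔ y ∈ X.coboundaries m := by
    intro y
    have h5 : p y = 0 ↔ θ (QuotientAddGroup.mk ⟨y, hker y⟩) = 0 := by
      constructor
      · intro h
        refine Subtype.ext ?_
        change toF (p y).1 = 0
        rw [h]
        rfl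
      · intro h
        refine Subtype.ext ?_
        change ofF (θ (QuotientAddGroup.mk ⟨y, hker y⟩)).1 = 0
        rw [h]
        rfl
    rw [h5, EmbeddingLike.map_eq_zero_iff, QuotientAddGroup.eq_zero_iff]
    rfl
  have hp3 : ∀ (g : G) (y : Fin (X.n m) → MonoidAlgebra ℤ G),
      p (fun b => y b * MonoidAlgebra.single g⁻¹ 1) =
        (MonoidAlgebra.single g 1 : MonoidAlgebra ℤ G) • p y := by
    intro g y
    apply Subtype.ext
    change ofF (θ (QuotientAddGroup.mk ⟨_, hker _⟩)).1 =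
      (MonoidAlgebra.single g 1 : MonoidAlgebra ℤ G) • ofF (θ (QuotientAddGroup.mk ⟨y, hker y⟩)).1
    have h5 := hθ g ⟨y, hker y⟩ ⟨fun b => y b * MonoidAlgebra.single g⁻¹ 1, hker _⟩ (fun _ => rfl)
    rw [h5]
    apply toF_inj
    rw [toF_smul, one_smul]
    rfl
  obtain ⟨R, hR, L, hL⟩ := last (toRed G) N i₀ d T hne h0 hex (by
    intro i hi
    obtain ⟨R, hR, hb⟩ := exists_perm_res (rep i) (hrep i hi) (Y i)
    refine ⟨R, ⟨fun e1 e2 => ?_, fun e1 => ?_, fun e1 => ?_⟩, hb⟩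
    · exact (hR (RedC G) (toRed G) _).2 fun a => ex_big (Y i a) _ (h3 i e1 hi e2 a)
    · subst e1
      intro e2
      have e3 := (hR (RedC G) (toRed G) _).1 e2 a₀
      have e4 := (exAt_iff _ _ _).1 (ex_small _ _ e3)
      exact not_subsingleton_iff_nontrivial.2 h1 e4
    · exact (hR (RedC G) (toRed G) _).2 fun a => ex_big (Y i a) _ (h2 i e1 a))
    ⟨dualRes X m p hcoh hp1 hp2 hp3, ⟨fun _ _ =>
      exR_dual X m p hcoh hp1 hp2 hp3 (toRed G) st st_st st_mul st_toRed hlen hX _,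
      fun h => by omega⟩, m, fun l hl => empty_of_lt X m hl⟩
  exact hR (exR_of_toFin R L hL (toRed G) N
    (ex_indep X (toFin R L hL) (toRed G) N (hX N)))

end

end Pool.Agent.L0h31.ZB
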