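import Pool.Agent.L0h31.ZB.Z3

/-!
The dual of a finite free resolution of a Poincaré duality group, for an arbitrary anti-involution of
the group ring.
-/

set_option autoImplicit false
set_option linter.unusedSectionVars false

open scoped Matrix ENNReal

namespace Pool.Agent.L0h31.ZB

open Pool.Agent.H919R4.ZS
open Pool.Agent.TH38.CX (Res ExR Triv toFin exR_of_toFin tv triv_smul)
open Pool.Agent.TH38.ZT (ExAt exAt_iff ex_indep)

noncomputable section

variable {G : Type} [Group G] (X : FinRes G) (m : ℕ)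

/-- exactness in degree `i` of the cochain complex `Hom(X, S)` -/
def CoEx {S : Type} [Ring S] (φ : MonoidAlgebra ℤ G →+* S) : ℕ → Prop
  | 0 => ∀ c : Fin (X.n 0) → S, (X.d 0).map φ *ᵥ c = 0 → c = 0
  | i + 1 => ∀ c : Fin (X.n (i + 1)) → S, (X.d (i + 1)).map φ *ᵥ c = 0 →
      ∃ c', (X.d i).map φ *ᵥ c' = c

/-- the cochain complex is exact if the chain complex is -/
theorem coEx_of_ex {S : Type} [Ring S] (φ : MonoidAlgebra ℤ G →+* S) (hX : ∀ i, ExAt X φ i)
    (i : ℕ) : CoEx X φ i := by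
  obtain ⟨s, hs0, hs⟩ := Pool.Agent.TH38.ZT.contraction' X φ i fun i _ => hX i
  cases i with
  | zero =>
    intro c hc
    have h1 : (s 0 * (X.d 0).map φ) *ᵥ c = c := by rw [hs0, Matrix.one_mulVec]
    rw [← h1, ← Matrix.mulVec_mulVec, hc, Matrix.mulVec_zero]
  | succ i =>
    intro c hc
    refine ⟨s i *ᵥ c, ?_⟩
    have h1 : ((X.d i).map φ * s i + s (i + 1) * (X.d (i + 1)).map φ) *ᵥ c = c := by
      rw [hs i le_rfl, Matrix.one_mulVec]
    rw [Matrix.add_mulVec, ← Matrix.mulVec_mulVec, ← Matrix.mulVec_mulVec, hc,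
      Matrix.mulVec_zero, add_zero] at h1
    exact h1

lemma coEx_of_len {S : Type} [Ring S] (φ : MonoidAlgebra ℤ G →+* S) (i : ℕ) (h : X.len < i) :
    CoEx X φ i := by
  cases i with
  | zero => omega
  | succ i =>
    have h1 : IsEmpty (Fin (X.n (i + 1))) := by
      rw [X.n_eq_zero (i + 1) h]
      infer_instance
    exact fun c _ => ⟨0, funext fun j => h1.elim j⟩

variable (κ : MonoidAlgebra ℤ G →+ MonoidAlgebra ℤ G)

/-- the differentials of the dual complex -/
def dk (j : ℕ) : Matrix (dι X m (j + 1)) (dι X m j) (MonoidAlgebra ℤ G) := fun a b =>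
  κ (X.d a.1.1 (Fin.cast (congrArg X.n (by have := a.1.2; have := b.1.2; omega)) b.2) a.2)

section vec

variable {S : Type} [Ring S] (φ φ' : MonoidAlgebra ℤ G →+* S) (τ : S →+ S)
  (hτ : ∀ x, τ (τ x) = x) (hτm : ∀ x y, τ (x * y) = τ y * τ x) (hτφ : ∀ a, τ (φ a) = φ' (κ a))
include hτ hτm hτφ

lemma at_vec' {j : ℕ} (i : ℕ) (h : i + 1 + j = m) (h' : i + (j + 1) = m)
    (x : dι X m (j + 1) → S) :
    at' X m (x ᵥ* (dk X m κ j).map φ') (i + 1) h =
      fun b => τ (((X.d i).map φ *ᵥ (fun a => τ (at' X m x i h' a))) b) := by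
  funext b
  simp only [at', Matrix.vecMul, Matrix.mulVec, dotProduct, map_sum, hτm, hτ]
  rw [sum_dι X m i h']
  refine Finset.sum_congr rfl fun a _ => ?_
  rw [Matrix.map_apply, Matrix.map_apply, hτφ]
  rfl

lemma vec_zero' {j : ℕ} (i : ℕ) (h' : i + (j + 1) = m) (x : dι X m (j + 1) → S) :
    x ᵥ* (dk X m κ j).map φ' = 0 ↔ (X.d i).map φ *ᵥ (fun a => τ (at' X m x i h' a)) = 0 := by
  have h : i + 1 + j = m := by omega
  have h1 := at_vec' X m κ φ φ' τ hτ hτm hτφ i h h' x
  constructor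
  · intro hx
    rw [hx] at h1
    funext b
    have h2 := congrFun h1 b
    have h3 := congrArg τ h2
    rw [hτ] at h3
    rw [← h3]
    exact map_zero τ
  · intro hx
    apply at_inj X m (i + 1) h
    rw [h1, hx]
    funext b
    exact map_zero τ

lemma vec_range' {j : ℕ} (i : ℕ) (h : i + 1 + j = m) (x : dι X m j → S) :
    (∃ y, y ᵥ* (dk X m κ j).map φ' = x) ↔
      ∃ c, (X.d i).map φ *ᵥ c = fun a => τ (at' X m x (i + 1) h a) := by
  have h' : i + (j + 1) = m := by omega
  constructor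
  · rintro ⟨y, rfl⟩
    refine ⟨fun a => τ (at' X m y i h' a), ?_⟩
    rw [at_vec' X m κ φ φ' τ hτ hτm hτφ i h h' y]
    funext b
    exact (hτ _).symm
  · rintro ⟨c, hc⟩
    refine ⟨mk' X m i h' (fun a => τ (c a)), ?_⟩
    apply at_inj X m (i + 1) h
    rw [at_vec' X m κ φ φ' τ hτ hτm hτφ i h h', at_mk]
    funext b
    simp only [hτ]
    rw [show (fun a => c a) = c from rfl, hc]
    exact hτ _

omit hτ hτm hτφ in
lemma vec_range_last' {j : ℕ} (h : j = m) (x : dι X m j → S) :
    (∃ y, y ᵥ* (dk X m κ j).map φ' = x) ↔ x = 0 := by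
  have h1 : IsEmpty (dι X m (j + 1)) := empty_of_lt X m (by omega)
  constructor
  · rintro ⟨y, rfl⟩
    have : y = 0 := Subsingleton.elim _ _
    rw [this, Matrix.zero_vecMul]
  · rintro rfl
    exact ⟨0, Matrix.zero_vecMul _⟩

/-- the dual complex is exact in the degree `j` after the change of rings -/
def DK (φ' : MonoidAlgebra ℤ G →+* S) (j : ℕ) : Prop :=
  match j with
  | 0 => ∀ x : dι X m 0 → S, ∃ y, y ᵥ* (dk X m κ 0).map φ' = x
  | j + 1 => ∀ x : dι X m (j + 1) → S, x ᵥ* (dk X m κ j).map φ' = 0 →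
      ∃ y, y ᵥ* (dk X m κ (j + 1)).map φ' = x

/-- the condition to be a cycle -/
def CycK (φ' : MonoidAlgebra ℤ G →+* S) : ∀ j, (dι X m j → S) → Prop
  | 0, _ => True
  | j + 1, x => x ᵥ* (dk X m κ j).map φ' = 0

lemma zero_iff {j : ℕ} (i : ℕ) (h : i + j = m) (x : dι X m j → S) :
    x = 0 ↔ (fun a => τ (at' X m x i h a)) = 0 := by
  constructor
  · rintro rfl
    funext a
    exact map_zero τ
  · intro h1
    apply at_inj X m i h
    funext a
    have h3 := congrArg τ (congrFun h1 a)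
    rw [hτ] at h3
    rw [h3]
    exact map_zero τ

lemma dk_iff (hlen : X.len ≤ m) (i j : ℕ) (h : i + j = m) :
    DK X m κ φ' j ↔ CoEx X φ i := by
  -- vectors correspond to columns
  have hcol : ∀ c : Fin (X.n i) → S, ∃ x : dι X m j → S, (fun a => τ (at' X m x i h a)) = c := by
    intro c
    refine ⟨mk' X m i h (fun a => τ (c a)), ?_⟩
    rw [at_mk]
    funext a
    exact hτ _
  -- the condition to be a cycle
  have hcyc : ∀ x : dι X m j → S, CycK X m κ φ' j x ↔
      (X.d i).map φ *ᵥ (fun a => τ (at' X m x i h a)) = 0 := by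
    intro x
    cases j with
    | zero =>
      have h4 : IsEmpty (Fin (X.n (i + 1))) := by
        rw [X.n_eq_zero (i + 1) (by omega)]
        infer_instance
      exact ⟨fun _ => funext fun b => h4.elim b, fun _ => trivial⟩
    | succ j => exact vec_zero' X m κ φ φ' τ hτ hτm hτφ i h x
  have hD : DK X m κ φ' j ↔ ∀ x : dι X m j → S, CycK X m κ φ' j x →
      ∃ y, y ᵥ* (dk X m κ j).map φ' = x := by
    cases j with
    | zero => exact ⟨fun h x _ => h x, fun h x => h x trivial⟩
    | succ j => exact Iff.rfl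
  rw [hD]
  cases i with
  | zero =>
    constructor
    · intro h1 c hc
      obtain ⟨x, rfl⟩ := hcol c
      have h2 := (vec_range_last' X m κ φ' (by omega) x).1 (h1 x ((hcyc x).2 hc))
      exact (zero_iff X m κ φ φ' τ hτ hτm hτφ 0 h x).1 h2
    · intro h1 x hx
      rw [vec_range_last' X m κ φ' (by omega)]
      exact (zero_iff X m κ φ φ' τ hτ hτm hτφ 0 h x).2 (h1 _ ((hcyc x).1 hx))
  | succ i =>
    constructor
    · intro h1 c hc
      obtain ⟨x, rfl⟩ := hcol c
      exact (vec_range' X m κ φ φ' τ hτ hτm hτφ i h x).1 (h1 x ((hcyc x).2 hc))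
    · intro h1 x hx
      exact (vec_range' X m κ φ φ' τ hτ hτm hτφ i h x).2 (h1 _ ((hcyc x).1 hx))

end vec

/-! ### the dual resolution -/

section res

variable {M : Type} [AddCommGroup M] [Module (MonoidAlgebra ℤ G) M]
  (p : (Fin (X.n m) → MonoidAlgebra ℤ G) →+ M)

lemma ev_daug' (hp : ∀ (a : MonoidAlgebra ℤ G) (y : Fin (X.n m) → MonoidAlgebra ℤ G),
    a • p y = p (fun b => y b * κ a)) (x : dι X m 0 → MonoidAlgebra ℤ G) :
    ∑ k, x k • daug X m p k = p (fun b => κ (at' X m x m (Nat.add_zero m) b)) := by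
  rw [sum_dι X m m (Nat.add_zero m)]
  simp only [daug, hp]
  rw [← map_sum]
  congr 1
  funext b
  rw [Finset.sum_apply, Finset.sum_eq_single b]
  · rw [if_pos rfl, one_mul]
    rfl
  · intro a _ hab
    rw [if_neg (fun h => hab (Fin.ext h.symm)), zero_mul]
  · intro h
    exact absurd (Finset.mem_univ b) h

lemma dk_map_id (j : ℕ) : (dk X m κ j).map (RingHom.id (MonoidAlgebra ℤ G)) = dk X m κ j := rfl

/-- the dual resolution -/
def dualK (hκ : ∀ a, κ (κ a) = a) (hκm : ∀ a b, κ (a * b) = κ b * κ a)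
    (hcoh : ∀ k < m, Subsingleton (X.cohomology k)) (hp1 : Function.Surjective p)
    (hp2 : ∀ y, p y = 0 ↔ y ∈ X.coboundaries m)
    (hp3 : ∀ (a : MonoidAlgebra ℤ G) (y : Fin (X.n m) → MonoidAlgebra ℤ G),
      a • p y = p (fun b => y b * κ a)) : Res G M where
  ι := dι X m
  fin := fun _ => inferInstance
  d := dk X m κ
  aug := daug X m p
  surj := by
    intro v
    obtain ⟨y, rfl⟩ := hp1 v
    refine ⟨mk' X m m (Nat.add_zero m) (fun b => κ (y b)), ?_⟩
    rw [ev_daug' X m κ p hp3, at_mk]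
    simp only [hκ]
  exact_zero := by
    intro x
    rw [ev_daug' X m κ p hp3, hp2]
    rcases Nat.eq_zero_or_pos m with hm | hm
    · subst hm
      have h1 := vec_range_last' X 0 κ (RingHom.id (MonoidAlgebra ℤ G)) rfl x
      rw [dk_map_id] at h1
      rw [h1]
      exact (zero_iff X 0 κ (RingHom.id _) (RingHom.id _) κ hκ hκm (fun _ => rfl) 0 rfl x).symm
    · obtain ⟨i, rfl⟩ : ∃ i, m = i + 1 := ⟨m - 1, by omega⟩
      have h1 := vec_range' X (i + 1) κ (RingHom.id (MonoidAlgebra ℤ G)) (RingHom.id _) κ hκ hκm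
        (fun _ => rfl) i (Nat.add_zero _) x
      rw [dk_map_id, d_map_id] at h1
      rw [h1]
      rfl
  exact_succ := by
    intro j x
    rcases Nat.lt_or_ge m (j + 1) with hj | hj
    · have h1 : IsEmpty (dι X m (j + 1)) := empty_of_lt X m hj
      constructor
      · intro _
        exact ⟨0, Subsingleton.elim _ _⟩
      · intro _
        have : x = 0 := Subsingleton.elim _ _
        rw [this, Matrix.zero_vecMul]
    · obtain ⟨i, hi⟩ : ∃ i, i + (j + 1) = m := ⟨m - (j + 1), by omega⟩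
      have h1 := vec_zero' X m κ (RingHom.id (MonoidAlgebra ℤ G)) (RingHom.id _) κ hκ hκm
        (fun _ => rfl) i hi x
      rw [dk_map_id, d_map_id] at h1
      rw [h1]
      have h2 : X.d i *ᵥ (fun a => κ (at' X m x i hi a)) = 0 ↔
          (fun a => κ (at' X m x i hi a)) ∈ X.coboundaries i := by
        constructor
        · exact coh_exact X (hcoh i (by omega)) _
        · intro h
          cases i with
          | zero =>
            have h3 : (fun a => κ (at' X m x 0 hi a)) = 0 := h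
            rw [h3, Matrix.mulVec_zero]
          | succ i =>
            obtain ⟨c, hc⟩ := h
            rw [← hc]
            change X.d (i + 1) *ᵥ (X.d i *ᵥ c) = 0
            rw [Matrix.mulVec_mulVec, d_mul_d, Matrix.zero_mulVec]
      rw [h2]
      cases i with
      | zero =>
        have h3 := vec_range_last' X m κ (RingHom.id (MonoidAlgebra ℤ G)) (j := j + 1) (by omega) x
        rw [dk_map_id] at h3
        rw [h3]
        exact (zero_iff X m κ (RingHom.id _) (RingHom.id _) κ hκ hκm (fun _ => rfl) 0 hi x).symm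
      | succ i =>
        have h3 := vec_range' X m κ (RingHom.id (MonoidAlgebra ℤ G)) (RingHom.id _) κ hκ hκm
          (fun _ => rfl) i (j := j + 1) (by omega) x
        rw [dk_map_id, d_map_id] at h3
        rw [h3]
        rfl

lemma exR_dualK (hκ : ∀ a, κ (κ a) = a) (hκm : ∀ a b, κ (a * b) = κ b * κ a)
    (hcoh : ∀ k < m, Subsingleton (X.cohomology k)) (hp1 : Function.Surjective p)
    (hp2 : ∀ y, p y = 0 ↔ y ∈ X.coboundaries m)
    (hp3 : ∀ (a : MonoidAlgebra ℤ G) (y : Fin (X.n m) → MonoidAlgebra ℤ G),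
      a • p y = p (fun b => y b * κ a))
    {S : Type} [Ring S] (φ' : MonoidAlgebra ℤ G →+* S) (j : ℕ) :
    ExR (dualK X m κ p hκ hκm hcoh hp1 hp2 hp3) φ' j ↔ DK X m κ φ' j := by
  cases j with
  | zero => exact Iff.rfl
  | succ j => exact Iff.rfl

end res

/-- exactness of the finite resolution obtained by reindexing -/
lemma toFin_of_exR (R : Res G (Triv G)) (L : ℕ) (hL : ∀ j > L, IsEmpty (R.ι j)) {S : Type}
    [Ring S] (φ : MonoidAlgebra ℤ G →+* S) (k : ℕ) (h : ExR R φ k) : ExAt (toFin R L hL) φ k := by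
  cases k with
  | zero =>
    intro (x : Fin (Fintype.card (R.ι 0)) → S)
    obtain ⟨y, hy⟩ := h (x ∘ (Fintype.equivFin (R.ι 0)))
    refine ⟨y ∘ (Fintype.equivFin (R.ι (0 + 1))).symm, ?_⟩
    change (y ∘ (Fintype.equivFin (R.ι (0 + 1))).symm) ᵥ*
      ((R.d 0).map φ).submatrix (Fintype.equivFin (R.ι (0 + 1))).symm
        (Fintype.equivFin (R.ι 0)).symm = x
    rw [Matrix.submatrix_vecMul_equiv]
    have h1 : (y ∘ (Fintype.equivFin (R.ι (0 + 1))).symm) ∘
        (Fintype.equivFin (R.ι (0 + 1))).symm.symm = y := by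
      funext j; simp
    rw [h1, hy]
    funext j
    exact congrArg x (Equiv.apply_symm_apply _ j)
  | succ i =>
    intro (x : Fin (Fintype.card (R.ι (i + 1))) → S)
      (hx : x ᵥ* ((R.d i).map φ).submatrix (Fintype.equivFin (R.ι (i + 1))).symm
      (Fintype.equivFin (R.ι i)).symm = 0)
    obtain ⟨y, hy⟩ := h (x ∘ (Fintype.equivFin (R.ι (i + 1)))) (by
      rw [Matrix.submatrix_vecMul_equiv] at hx
      funext j
      have := congrFun hx (Fintype.equivFin (R.ι i) j)
      simpa using this)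
    refine ⟨y ∘ (Fintype.equivFin (R.ι (i + 1 + 1))).symm, ?_⟩
    change (y ∘ (Fintype.equivFin (R.ι (i + 1 + 1))).symm) ᵥ*
      ((R.d (i + 1)).map φ).submatrix (Fintype.equivFin (R.ι (i + 1 + 1))).symm
        (Fintype.equivFin (R.ι (i + 1))).symm = x
    rw [Matrix.submatrix_vecMul_equiv]
    have h1 : (y ∘ (Fintype.equivFin (R.ι (i + 1 + 1))).symm) ∘
        (Fintype.equivFin (R.ι (i + 1 + 1))).symm.symm = y := by
      funext j; simp
    rw [h1, hy]
    funext j
    exact congrArg x (Equiv.apply_symm_apply _ j)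

end

end Pool.Agent.L0h31.ZB
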