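import Pool.Agent.L0h31.ZB.Z4

/-!
Poincaré duality groups: orientation characters and twisted coefficients.
-/

set_option autoImplicit false
set_option linter.unusedSectionVars false

open scoped Matrix ENNReal

namespace Pool.Agent.L0h31.ZB

open Pool.Agent.H919R4.ZS
open Pool.Agent.TH38.CX (Res ExR Triv toFin exR_of_toFin tv triv_smul incl exists_cond)
open Pool.Agent.TH38.CX.Cond (redSet isClosed_redSet gen_mem two_pos)
open Pool.Agent.TH38.ZT (ExAt exAt_iff ex_indep ex_comp)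

noncomputable section

/-- a character with values `±1` -/
structure Sg (G : Type) [Group G] where
  s : G → ℤ
  mul : ∀ g h, s (g * h) = s g * s h
  sq : ∀ g, s g * s g = 1

variable {G : Type} [Group G]

namespace Sg

variable (σ : Sg G)

lemma one : σ.s 1 = 1 := by
  have h1 := σ.mul 1 1
  rw [mul_one] at h1
  rw [h1]
  exact σ.sq 1

lemma inv (g : G) : σ.s g⁻¹ = σ.s g := by
  have h1 := σ.mul g⁻¹ g
  rw [inv_mul_cancel, σ.one] at h1
  calc σ.s g⁻¹ = σ.s g⁻¹ * (σ.s g * σ.s g) := by rw [σ.sq, mul_one]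
    _ = (σ.s g⁻¹ * σ.s g) * σ.s g := by ring
    _ = σ.s g := by rw [← h1, one_mul]

/-- the character as a homomorphism to the group ring -/
def hom : G →* MonoidAlgebra ℤ G where
  toFun g := MonoidAlgebra.single g (σ.s g)
  map_one' := by rw [σ.one]; rfl
  map_mul' g h := by rw [MonoidAlgebra.single_mul_single, σ.mul]

/-- the automorphism `g ↦ σ(g) g` of the group ring -/
def θ : MonoidAlgebra ℤ G →+* MonoidAlgebra ℤ G :=
  (MonoidAlgebra.lift ℤ (MonoidAlgebra ℤ G) G σ.hom).toRingHom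

lemma θ_single (g : G) (r : ℤ) :
    σ.θ (MonoidAlgebra.single g r) = (MonoidAlgebra.single g (r * σ.s g) : MonoidAlgebra ℤ G) := by
  change MonoidAlgebra.lift ℤ (MonoidAlgebra ℤ G) G σ.hom (MonoidAlgebra.single g r) = _
  rw [MonoidAlgebra.lift_single]
  change r • (MonoidAlgebra.single g (σ.s g) : MonoidAlgebra ℤ G) = _
  rw [MonoidAlgebra.smul_single, smul_eq_mul]

lemma θ_θ (a : MonoidAlgebra ℤ G) : σ.θ (σ.θ a) = a := by
  refine MonoidAlgebra.induction_linear a ?_ ?_ ?_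
  · rw [map_zero, map_zero]
  · intro x y hx hy
    rw [map_add, map_add, hx, hy]
  · intro g r
    rw [θ_single, θ_single, mul_assoc, σ.sq, mul_one]

/-- the anti-involution `g ↦ σ(g) g⁻¹` of the group ring -/
def κ : MonoidAlgebra ℤ G →+ MonoidAlgebra ℤ G := σ.θ.toAddMonoidHom.comp iv

lemma κ_apply (a : MonoidAlgebra ℤ G) : σ.κ a = σ.θ (iv a) := rfl

lemma κ_single (g : G) (r : ℤ) :
    σ.κ (MonoidAlgebra.single g r) = (MonoidAlgebra.single g⁻¹ (r * σ.s g) : MonoidAlgebra ℤ G) := by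
  rw [κ_apply, iv_single, θ_single, σ.inv]

lemma κ_κ (a : MonoidAlgebra ℤ G) : σ.κ (σ.κ a) = a := by
  refine MonoidAlgebra.induction_linear a ?_ ?_ ?_
  · rw [map_zero, map_zero]
  · intro x y hx hy
    rw [map_add, map_add, hx, hy]
  · intro g r
    rw [κ_single, κ_single, inv_inv, σ.inv, mul_assoc, σ.sq, mul_one]

lemma κ_mul (a b : MonoidAlgebra ℤ G) : σ.κ (a * b) = σ.κ b * σ.κ a := by
  rw [κ_apply, iv_mul, map_mul]
  rfl

/-! ### the automorphism of the reduced `C*`-algebra -/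

lemma norm_s (g : G) : ‖(σ.s g : ℂ)‖ = 1 := by
  have h1 : (σ.s g : ℂ) * (σ.s g : ℂ) = 1 := by
    have := σ.sq g
    exact_mod_cast this
  have h2 : ‖(σ.s g : ℂ)‖ * ‖(σ.s g : ℂ)‖ = 1 := by
    rw [← norm_mul, h1, norm_one]
  nlinarith [norm_nonneg (σ.s g : ℂ)]

lemma memlp_U {f : G → ℂ} (hf : Memℓp f 2) : Memℓp (fun h => (σ.s h : ℂ) * f h) 2 := by
  rw [memℓp_gen_iff two_pos] at hf ⊢
  refine hf.congr fun h => ?_
  rw [norm_mul, σ.norm_s, one_mul]

/-- multiplication by the character -/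
def UL : L2 G →ₗ[ℂ] L2 G where
  toFun f := ⟨fun h => (σ.s h : ℂ) * f h, σ.memlp_U (lp.memℓp f)⟩
  map_add' f g := Subtype.ext (funext fun h => mul_add _ _ _)
  map_smul' c f := Subtype.ext (funext fun h => mul_left_comm _ _ _)

lemma norm_UL (f : L2 G) : ‖σ.UL f‖ ≤ ‖f‖ := by
  refine lp.norm_le_of_tsum_le two_pos (norm_nonneg f) ?_
  rw [lp.norm_rpow_eq_tsum two_pos f]
  refine le_of_eq (tsum_congr fun h => ?_)
  change ‖(σ.s h : ℂ) * f h‖ ^ (2 : ℝ≥0∞).toReal = _
  rw [norm_mul, σ.norm_s, one_mul]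

/-- multiplication by the character -/
def U : L2 G →L[ℂ] L2 G :=
  (σ.UL).mkContinuous 1 (fun f => by rw [one_mul]; exact σ.norm_UL f)

lemma U_apply (f : L2 G) (h : G) : σ.U f h = (σ.s h : ℂ) * f h := rfl

lemma U_U : σ.U * σ.U = 1 := by
  refine ContinuousLinearMap.ext fun f => Subtype.ext (funext fun h => ?_)
  change (σ.s h : ℂ) * ((σ.s h : ℂ) * f h) = f h
  rw [← mul_assoc]
  have h1 : (σ.s h : ℂ) * (σ.s h : ℂ) = 1 := by
    have := σ.sq h
    exact_mod_cast this
  rw [h1, one_mul]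

lemma U_lreg (g : G) : σ.U * lregL g * σ.U = (σ.s g : ℂ) • lregL g := by
  refine ContinuousLinearMap.ext fun f => Subtype.ext (funext fun h => ?_)
  change (σ.s h : ℂ) * ((σ.s (g⁻¹ * h) : ℂ) * f (g⁻¹ * h)) = (σ.s g : ℂ) * f (g⁻¹ * h)
  rw [← mul_assoc, σ.mul, σ.inv]
  congr 1
  have h1 : σ.s h * (σ.s g * σ.s h) = σ.s g := by
    calc σ.s h * (σ.s g * σ.s h) = σ.s g * (σ.s h * σ.s h) := by ring
      _ = σ.s g := by rw [σ.sq, mul_one]
  exact_mod_cast h1

lemma conj_mem (T : L2 G →L[ℂ] L2 G) (hT : T ∈ redSet G) : σ.U * T * σ.U ∈ redSet G := by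
  let A : Subring (L2 G →L[ℂ] L2 G) :=
    { carrier := {T | σ.U * T * σ.U ∈ redSet G}
      mul_mem' := by
        intro a b ha hb
        change σ.U * (a * b) * σ.U ∈ redSet G
        have h : σ.U * (a * b) * σ.U = (σ.U * a * σ.U) * (σ.U * b * σ.U) := by
          calc σ.U * (a * b) * σ.U = σ.U * a * 1 * b * σ.U := by
                rw [mul_one]; simp only [mul_assoc]
            _ = σ.U * a * (σ.U * σ.U) * b * σ.U := by rw [σ.U_U]
            _ = _ := by simp only [mul_assoc]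
        rw [h]
        exact Subring.mul_mem (redCstar G : Subring (L2 G →L[ℂ] L2 G)) ha hb
      one_mem' := by
        change σ.U * 1 * σ.U ∈ redSet G
        rw [mul_one, σ.U_U]
        exact Subring.one_mem (redCstar G : Subring (L2 G →L[ℂ] L2 G))
      add_mem' := by
        intro a b ha hb
        change σ.U * (a + b) * σ.U ∈ redSet G
        rw [mul_add, add_mul]
        exact Subring.add_mem (redCstar G : Subring (L2 G →L[ℂ] L2 G)) ha hb
      zero_mem' := by
        change σ.U * 0 * σ.U ∈ redSet G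
        rw [mul_zero, zero_mul]
        exact Subring.zero_mem (redCstar G : Subring (L2 G →L[ℂ] L2 G))
      neg_mem' := by
        intro a ha
        change σ.U * (-a) * σ.U ∈ redSet G
        rw [mul_neg, neg_mul]
        exact Subring.neg_mem (redCstar G : Subring (L2 G →L[ℂ] L2 G)) ha }
  have hc : Continuous fun T : L2 G →L[ℂ] L2 G => σ.U * T * σ.U :=
    (continuous_const.mul continuous_id).mul continuous_const
  have hA : IsClosed (A : Set (L2 G →L[ℂ] L2 G)) := (isClosed_redSet G).preimage hc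
  have h1 : (redCstar G : Subring (L2 G →L[ℂ] L2 G)) ≤ A := by
    refine Subring.topologicalClosure_minimal _ ?_ hA
    refine Subring.closure_le.2 ?_
    rintro _ ⟨c, g, rfl⟩
    change σ.U * (c • lregL g) * σ.U ∈ redSet G
    rw [mul_smul_comm, smul_mul_assoc, σ.U_lreg, smul_smul]
    exact gen_mem _ _
  exact h1 hT

/-- the automorphism of `C*_r(G)` given by the character -/
def α : RedC G →+* RedC G where
  toFun x := ⟨σ.U * valR x * σ.U, σ.conj_mem _ (Subtype.property x)⟩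
  map_one' := valR_inj (by
    change σ.U * valR (1 : RedC G) * σ.U = 1
    rw [map_one, mul_one, σ.U_U])
  map_zero' := valR_inj (by
    change σ.U * valR (0 : RedC G) * σ.U = 0
    rw [map_zero, mul_zero, zero_mul])
  map_add' x y := valR_inj (by
    change σ.U * valR (x + y) * σ.U = σ.U * valR x * σ.U + σ.U * valR y * σ.U
    rw [map_add, mul_add, add_mul])
  map_mul' x y := valR_inj (by
    change σ.U * valR (x * y) * σ.U = (σ.U * valR x * σ.U) * (σ.U * valR y * σ.U)
    have h0 : valR (x * y) = valR x * valR y := map_mul valR x y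
    calc σ.U * valR (x * y) * σ.U = σ.U * valR x * 1 * valR y * σ.U := by
          rw [mul_one, h0]; simp only [mul_assoc]
      _ = σ.U * valR x * (σ.U * σ.U) * valR y * σ.U := by rw [σ.U_U]
      _ = _ := by simp only [mul_assoc])

lemma valR_α (x : RedC G) : valR (σ.α x) = σ.U * valR x * σ.U := rfl

lemma α_α (x : RedC G) : σ.α (σ.α x) = x := by
  apply valR_inj
  rw [valR_α, valR_α]
  calc σ.U * (σ.U * valR x * σ.U) * σ.U = (σ.U * σ.U) * valR x * (σ.U * σ.U) := by
        simp only [mul_assoc]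
    _ = valR x := by rw [σ.U_U, one_mul, mul_one]

lemma α_toRed (a : MonoidAlgebra ℤ G) : σ.α (toRed G a) = toRed G (σ.θ a) := by
  refine MonoidAlgebra.induction_linear a ?_ ?_ ?_
  · rw [map_zero, map_zero, map_zero, map_zero]
  · intro x y hx hy
    rw [map_add, map_add, map_add, map_add, hx, hy]
  · intro g r
    apply valR_inj
    rw [valR_α, coe_toRed, coe_toRed, θ_single, L_single, L_single,
      ← Int.cast_smul_eq_zsmul ℂ r, ← Int.cast_smul_eq_zsmul ℂ (r * σ.s g), mul_smul_comm,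
      smul_mul_assoc, σ.U_lreg, smul_smul]
    push_cast
    rfl

end Sg

/-! ### Poincaré duality -/

section pd

variable (X : FinRes G) (m : ℕ)

/-- right multiplication of columns -/
def rm (a : MonoidAlgebra ℤ G) : (Fin (X.n m) → MonoidAlgebra ℤ G) →+
    (Fin (X.n m) → MonoidAlgebra ℤ G) where
  toFun y := fun b => y b * a
  map_zero' := funext fun b => zero_mul _
  map_add' y z := funext fun b => add_mul _ _ _

lemma rm_cob (a : MonoidAlgebra ℤ G) (y : Fin (X.n m) → MonoidAlgebra ℤ G)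
    (hy : y ∈ X.coboundaries m) : rm X m a y ∈ X.coboundaries m := by
  cases m with
  | zero =>
    have h1 : y = 0 := hy
    rw [h1, map_zero]
    exact AddSubgroup.zero_mem _
  | succ m =>
    obtain ⟨c, rfl⟩ := hy
    refine ⟨rm X m a c, ?_⟩
    funext b
    change ∑ j, X.d m b j * (c j * a) = (∑ j, X.d m b j * c j) * a
    rw [Finset.sum_mul]
    exact Finset.sum_congr rfl fun j _ => (mul_assoc _ _ _).symm

theorem pd_data (hlen : X.len ≤ m) (e : X.cohomology m ≃+ ℤ) :
    ∃ (σ : Sg G) (p : (Fin (X.n m) → MonoidAlgebra ℤ G) →+ Triv G), Function.Surjective p ∧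
      (∀ y, p y = 0 ↔ y ∈ X.coboundaries m) ∧
      ∀ (a : MonoidAlgebra ℤ G) (y : Fin (X.n m) → MonoidAlgebra ℤ G),
        a • p y = p (fun b => y b * σ.κ a) := by
  classical
  have hker : ∀ y : Fin (X.n m) → MonoidAlgebra ℤ G, y ∈ (X.cobd m).ker := by
    intro y
    have h4 : IsEmpty (Fin (X.n (m + 1))) := by
      rw [X.n_eq_zero (m + 1) (by omega)]
      infer_instance
    exact funext fun b => h4.elim b
  let q : (Fin (X.n m) → MonoidAlgebra ℤ G) →+ ℤ :=
    { toFun := fun y => e (QuotientAddGroup.mk ⟨y, hker y⟩)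
      map_zero' := by
        have h5 : (QuotientAddGroup.mk ⟨0, hker 0⟩ : X.cohomology m) = 0 := rfl
        rw [h5, map_zero]
      map_add' := fun y z => by
        have h5 : (QuotientAddGroup.mk ⟨y + z, hker (y + z)⟩ : X.cohomology m) =
            QuotientAddGroup.mk ⟨y, hker y⟩ + QuotientAddGroup.mk ⟨z, hker z⟩ := rfl
        rw [h5, map_add] }
  have hq1 : Function.Surjective q := by
    intro x
    obtain ⟨z, hz⟩ := e.surjective x
    obtain ⟨y, rfl⟩ := QuotientAddGroup.mk_surjective z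
    exact ⟨y.1, hz⟩
  have hq2 : ∀ y, q y = 0 ↔ y ∈ X.coboundaries m := by
    intro y
    change e (QuotientAddGroup.mk ⟨y, hker y⟩) = 0 ↔ _
    rw [EmbeddingLike.map_eq_zero_iff, QuotientAddGroup.eq_zero_iff]
    rfl
  obtain ⟨y1, hy1⟩ := hq1 1
  have hmul : ∀ (a : MonoidAlgebra ℤ G) y, q (rm X m a y) = q y * q (rm X m a y1) := by
    intro a y
    have h1 : y - q y • y1 ∈ X.coboundaries m := by
      rw [← hq2, map_sub, map_zsmul, hy1, smul_eq_mul, mul_one, sub_self]
    have h2 := (hq2 _).2 (rm_cob X m a _ h1)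
    rw [map_sub, map_zsmul, map_sub, map_zsmul, sub_eq_zero, smul_eq_mul] at h2
    exact h2
  have hrm : ∀ (a b : MonoidAlgebra ℤ G) y, rm X m a (rm X m b y) = rm X m (b * a) y := by
    intro a b y
    funext j
    exact mul_assoc _ _ _
  obtain ⟨χ, hχ⟩ : ∃ χ : G → ℤ, χ = fun g => q (rm X m (MonoidAlgebra.single g⁻¹ 1) y1) :=
    ⟨_, rfl⟩
  have hχg : ∀ g y, q (rm X m (MonoidAlgebra.single g⁻¹ 1) y) = q y * χ g := by
    intro g y
    rw [hmul, hχ]
  have hχmul : ∀ g h, χ (g * h) = χ g * χ h := by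
    intro g h
    have h1 : (MonoidAlgebra.single (g * h)⁻¹ 1 : MonoidAlgebra ℤ G) =
        MonoidAlgebra.single h⁻¹ 1 * MonoidAlgebra.single g⁻¹ 1 := by
      rw [MonoidAlgebra.single_mul_single, mul_inv_rev, one_mul]
    have h2 : χ (g * h) = q (rm X m (MonoidAlgebra.single (g * h)⁻¹ 1) y1) := by rw [hχ]
    rw [h2, h1, ← hrm, hχg, hχg, hy1, one_mul, mul_comm]
  have hχ1 : χ 1 = 1 := by
    have h2 : χ 1 = q (rm X m (MonoidAlgebra.single (1 : G)⁻¹ 1) y1) := by rw [hχ]
    rw [h2]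
    have h3 : rm X m (MonoidAlgebra.single (1 : G)⁻¹ 1) y1 = y1 := by
      funext j
      change y1 j * MonoidAlgebra.single (1 : G)⁻¹ 1 = y1 j
      rw [inv_one]
      exact mul_one _
    rw [h3, hy1]
  have hχsq : ∀ g, χ g * χ g = 1 := by
    intro g
    have h1 : χ g * χ g⁻¹ = 1 := by rw [← hχmul, mul_inv_cancel, hχ1]
    rcases Int.isUnit_iff.1 (IsUnit.of_mul_eq_one (χ g⁻¹) h1) with h2 | h2 <;> rw [h2] <;> rfl
  let σ : Sg G := ⟨χ, hχmul, hχsq⟩
  let p : (Fin (X.n m) → MonoidAlgebra ℤ G) →+ Triv G := q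
  refine ⟨σ, p, hq1, hq2, ?_⟩
  intro a y
  refine MonoidAlgebra.induction_linear a ?_ ?_ ?_
  · rw [zero_smul, map_zero]
    have : (fun b => y b * (0 : MonoidAlgebra ℤ G)) = 0 := funext fun b => mul_zero _
    rw [this, map_zero]
  · intro u v hu hv
    have h : (fun b => y b * σ.κ (u + v)) = (fun b => y b * σ.κ u) + (fun b => y b * σ.κ v) :=
      funext fun b => by rw [map_add, mul_add]; rfl
    rw [add_smul, hu, hv, h, map_add]
  · intro g r
    have h1 : (MonoidAlgebra.single g r : MonoidAlgebra ℤ G) • p y =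
        (show Triv G from augm G (MonoidAlgebra.single g r) * q y) := rfl
    have h2 : (fun b => y b * σ.κ (MonoidAlgebra.single g r)) =
        (r * χ g) • rm X m (MonoidAlgebra.single g⁻¹ 1) y := by
      funext b
      rw [Sg.κ_single]
      change y b * MonoidAlgebra.single g⁻¹ (r * χ g) =
        (r * χ g) • (y b * (MonoidAlgebra.single g⁻¹ 1 : MonoidAlgebra ℤ G))
      rw [← mul_smul_comm, MonoidAlgebra.smul_single, smul_eq_mul, mul_one]
    rw [h1, h2, augm_single]
    change r * q y = q ((r * χ g) • rm X m (MonoidAlgebra.single g⁻¹ 1) y)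
    rw [map_zsmul, hχg, smul_eq_mul]
    calc r * q y = r * q y * (χ g * χ g) := by rw [hχsq, mul_one]
      _ = _ := by ring

/-- Poincaré duality for coefficients in a ring -/
theorem pd_iff (hlen : X.len ≤ m) (hcoh : ∀ k < m, Subsingleton (X.cohomology k))
    (e : X.cohomology m ≃+ ℤ) :
    ∃ σ : Sg G, ∀ {S : Type} [Ring S] (φ φ' : MonoidAlgebra ℤ G →+* S) (τ : S →+ S),
      (∀ x, τ (τ x) = x) → (∀ x y, τ (x * y) = τ y * τ x) → (∀ a, τ (φ a) = φ' (σ.κ a)) →
      ∀ i j, i + j = m → (CoEx X φ i ↔ ExAt X φ' j) := by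
  obtain ⟨σ, p, hp1, hp2, hp3⟩ := pd_data X m hlen e
  refine ⟨σ, ?_⟩
  intro S _ φ φ' τ hτ hτm hτφ i j hij
  have hL : ∀ l > m, IsEmpty ((dualK X m σ.κ p σ.κ_κ σ.κ_mul hcoh hp1 hp2 hp3).ι l) :=
    fun l hl => empty_of_lt X m hl
  rw [← dk_iff X m σ.κ φ φ' τ hτ hτm hτφ hlen i j hij,
    ← exR_dualK X m σ.κ p σ.κ_κ σ.κ_mul hcoh hp1 hp2 hp3 φ' j]
  constructor
  · intro h
    exact ex_indep (toFin _ m hL) X φ' j (toFin_of_exR _ m hL φ' j h)
  · intro h
    exact exR_of_toFin _ m hL φ' j (ex_indep X (toFin _ m hL) φ' j h)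

end pd

end

end Pool.Agent.L0h31.ZB
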