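import Pool.Agent.L0h31.ZB.Z5
import Pool.Agent.TH38.CX.Main

/-!
Cohomology: mapping cones and permutation modules.
-/

set_option autoImplicit false
set_option linter.unusedSectionVars false

open scoped Matrix

namespace Pool.Agent.L0h31.ZB

open Pool.Agent.H919R4.ZS
open Pool.Agent.TH38.CX
open Pool.Agent.TH38.ZT (ExAt exAt_iff ex_indep ex_comp)

noncomputable section

variable {G : Type} [Group G]
variable {M : Type} [AddCommGroup M] [Module (MonoidAlgebra ℤ G) M]
variable {M' : Type} [AddCommGroup M'] [Module (MonoidAlgebra ℤ G) M']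
variable {M'' : Type} [AddCommGroup M''] [Module (MonoidAlgebra ℤ G) M'']

/-- exactness of the cochain complex `Hom(R, S)` in degree `i` -/
def CoExR (R : Res G M) {S : Type} [Ring S] (φ : MonoidAlgebra ℤ G →+* S) : ℕ → Prop
  | 0 => ∀ c : R.ι 0 → S, (R.d 0).map φ *ᵥ c = 0 → c = 0
  | i + 1 => ∀ c : R.ι (i + 1) → S, (R.d (i + 1)).map φ *ᵥ c = 0 →
      ∃ c', (R.d i).map φ *ᵥ c' = c

section cone

variable (X' : Res G M') (X : Res G M) (f : M' →ₗ[MonoidAlgebra ℤ G] M)
  (g : M →ₗ[MonoidAlgebra ℤ G] M'') (hf : Function.Injective f) (hg : Function.Surjective g)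
  (hfg : ∀ m, g m = 0 ↔ ∃ m', f m' = m)
  (F : ∀ i, Matrix (X'.ι i) (X.ι i) (MonoidAlgebra ℤ G))
  (hF0 : ∀ k, X.ev (F 0 k) = f (X'.aug k)) (hF : ∀ i, X'.d i * F i = F (i + 1) * X.d i)
  {S : Type} [Ring S] (φ : MonoidAlgebra ℤ G →+* S)

lemma mul_cd0 (c : X.ι 0 → S) :
    (Matrix.fromRows (F 0) (X.d 0)).map φ *ᵥ c =
      (Sum.elim ((F 0).map φ *ᵥ c) ((X.d 0).map φ *ᵥ c) : X'.ι 0 ⊕ X.ι 1 → S) := by
  have h : (Matrix.fromRows (F 0) (X.d 0)).map φ =
      Matrix.fromRows ((F 0).map φ) ((X.d 0).map φ) := by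
    ext i j
    cases i <;> rfl
  rw [h, Matrix.fromRows_mulVec]

lemma mul_cds (i : ℕ) (c' : X'.ι i → S) (c : X.ι (i + 1) → S) :
    (Matrix.fromBlocks (-(X'.d i)) (F (i + 1)) 0 (X.d (i + 1))).map φ *ᵥ
      (Sum.elim c' c : X'.ι i ⊕ X.ι (i + 1) → S) =
      (Sum.elim (-((X'.d i).map φ *ᵥ c') + (F (i + 1)).map φ *ᵥ c) ((X.d (i + 1)).map φ *ᵥ c) :
        X'.ι (i + 1) ⊕ X.ι (i + 1 + 1) → S) := by
  have h1 : (-(X'.d i)).map φ = -((X'.d i).map φ) := by
    ext a b
    exact map_neg φ _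
  have h0 : (0 : Matrix (X.ι (i + 1 + 1)) (X'.ι i) (MonoidAlgebra ℤ G)).map φ = 0 := by
    ext a b
    exact map_zero φ
  rw [Matrix.fromBlocks_map, h1, h0, Matrix.fromBlocks_mulVec]
  simp only [Sum.elim_comp_inl, Sum.elim_comp_inr, Matrix.neg_mulVec, Matrix.zero_mulVec,
    zero_add]

theorem co2 (t : ℕ) (hc : CoExR (cone X' X f g hf hg hfg F hF0 hF) φ t) (hX' : CoExR X' φ t) :
    CoExR X φ t := by
  match t, hc, hX' with
  | 0, hc, hX' =>
    intro c hc0
    change ∀ c : X.ι 0 → S, (Matrix.fromRows (F 0) (X.d 0)).map φ *ᵥ c = 0 → c = 0 at hc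
    refine hc c ?_
    rw [mul_cd0, hc0, hX' ((F 0).map φ *ᵥ c) ?_, elim_zero]
    rw [Matrix.mulVec_mulVec, hF_map X' X F hF φ 0, ← Matrix.mulVec_mulVec, hc0,
      Matrix.mulVec_zero]
  | 1, hc, hX' =>
    intro c hc0
    change ∀ c : X'.ι 0 ⊕ X.ι 1 → S,
      (Matrix.fromBlocks (-(X'.d 0)) (F (0 + 1)) 0 (X.d (0 + 1))).map φ *ᵥ c = 0 →
        ∃ c' : X.ι 0 → S, (Matrix.fromRows (F 0) (X.d 0)).map φ *ᵥ c' = c at hc
    obtain ⟨b, hb⟩ := hX' ((F 1).map φ *ᵥ c) (by
      rw [Matrix.mulVec_mulVec, hF_map X' X F hF φ 1, ← Matrix.mulVec_mulVec, hc0,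
        Matrix.mulVec_zero])
    obtain ⟨w, hw⟩ := hc (Sum.elim b c) (by
      rw [mul_cds X' X F φ 0]
      rw [hb, neg_add_cancel, hc0, elim_zero])
    rw [mul_cd0] at hw
    exact ⟨w, (elim_inj hw).2⟩
  | s + 2, hc, hX' =>
    intro c hc0
    change ∀ c : X'.ι (s + 1) ⊕ X.ι (s + 1 + 1) → S,
      (Matrix.fromBlocks (-(X'.d (s + 1))) (F (s + 1 + 1)) 0 (X.d (s + 1 + 1))).map φ *ᵥ c = 0 →
        ∃ c' : X'.ι s ⊕ X.ι (s + 1) → S,
          (Matrix.fromBlocks (-(X'.d s)) (F (s + 1)) 0 (X.d (s + 1))).map φ *ᵥ c' = c at hc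
    obtain ⟨b, hb⟩ := hX' ((F (s + 1 + 1)).map φ *ᵥ c) (by
      rw [Matrix.mulVec_mulVec, hF_map X' X F hF φ (s + 1 + 1), ← Matrix.mulVec_mulVec, hc0,
        Matrix.mulVec_zero])
    obtain ⟨w, hw⟩ := hc (Sum.elim b c) (by
      rw [mul_cds X' X F φ (s + 1)]
      rw [hb, neg_add_cancel, hc0, elim_zero])
    obtain ⟨w', w, rfl⟩ := sum_split w
    rw [mul_cds X' X F φ s] at hw
    exact ⟨w, (elim_inj hw).2⟩

theorem co1_zero (hX : CoExR X φ 0) : CoExR (cone X' X f g hf hg hfg F hF0 hF) φ 0 := by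
  change ∀ c : X.ι 0 → S, (Matrix.fromRows (F 0) (X.d 0)).map φ *ᵥ c = 0 → c = 0
  intro c hc
  rw [mul_cd0, elim_zero] at hc
  exact hX c (elim_inj hc).2

theorem co1 (t : ℕ) (hX : CoExR X φ (t + 1)) (hX' : CoExR X' φ t) :
    CoExR (cone X' X f g hf hg hfg F hF0 hF) φ (t + 1) := by
  match t, hX, hX' with
  | 0, hX, hX' =>
    change ∀ c : X'.ι 0 ⊕ X.ι 1 → S,
      (Matrix.fromBlocks (-(X'.d 0)) (F (0 + 1)) 0 (X.d (0 + 1))).map φ *ᵥ c = 0 →
        ∃ c' : X.ι 0 → S, (Matrix.fromRows (F 0) (X.d 0)).map φ *ᵥ c' = c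
    intro c hc
    obtain ⟨c', c, rfl⟩ := sum_split c
    rw [mul_cds X' X F φ 0, elim_zero] at hc
    obtain ⟨h1, h2⟩ := elim_inj hc
    obtain ⟨w, rfl⟩ := hX c h2
    refine ⟨w, ?_⟩
    have h3 : c' - (F 0).map φ *ᵥ w = 0 := by
      refine hX' _ ?_
      rw [Matrix.mulVec_sub, Matrix.mulVec_mulVec, hF_map X' X F hF φ 0, ← Matrix.mulVec_mulVec]
      rw [neg_add_eq_zero] at h1
      exact sub_eq_zero.2 h1
    rw [mul_cd0, sub_eq_zero.1 h3]
  | s + 1, hX, hX' =>
    change ∀ c : X'.ι (s + 1) ⊕ X.ι (s + 1 + 1) → S,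
      (Matrix.fromBlocks (-(X'.d (s + 1))) (F (s + 1 + 1)) 0 (X.d (s + 1 + 1))).map φ *ᵥ c = 0 →
        ∃ c' : X'.ι s ⊕ X.ι (s + 1) → S,
          (Matrix.fromBlocks (-(X'.d s)) (F (s + 1)) 0 (X.d (s + 1))).map φ *ᵥ c' = c
    intro c hc
    obtain ⟨c', c, rfl⟩ := sum_split c
    rw [mul_cds X' X F φ (s + 1), elim_zero] at hc
    obtain ⟨h1, h2⟩ := elim_inj hc
    obtain ⟨w, rfl⟩ := hX c h2
    obtain ⟨b, hb⟩ := hX' (c' - (F (s + 1)).map φ *ᵥ w) (by
      rw [Matrix.mulVec_sub, Matrix.mulVec_mulVec, hF_map X' X F hF φ (s + 1),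
        ← Matrix.mulVec_mulVec]
      rw [neg_add_eq_zero] at h1
      exact sub_eq_zero.2 h1)
    refine ⟨Sum.elim (-b) w, ?_⟩
    rw [mul_cds X' X F φ s]
    congr 1
    rw [Matrix.mulVec_neg, neg_neg, hb, sub_add_cancel]

end cone

/-! ### the columns of a finite resolution -/

lemma coExR_of_toFin (R : Res G (Triv G)) (L : ℕ) (hL : ∀ j > L, IsEmpty (R.ι j)) {S : Type}
    [Ring S] (φ : MonoidAlgebra ℤ G →+* S) (k : ℕ) (h : CoEx (toFin R L hL) φ k) :
    CoExR R φ k := by
  cases k with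
  | zero =>
    intro c hc
    have h1 : (c ∘ (Fintype.equivFin (R.ι 0)).symm) = 0 := by
      refine h (c ∘ (Fintype.equivFin (R.ι 0)).symm) ?_
      change ((R.d 0).map φ).submatrix (Fintype.equivFin (R.ι (0 + 1))).symm
        (Fintype.equivFin (R.ι 0)).symm *ᵥ (c ∘ (Fintype.equivFin (R.ι 0)).symm) = 0
      rw [Matrix.submatrix_mulVec_equiv]
      have : (c ∘ (Fintype.equivFin (R.ι 0)).symm) ∘ (Fintype.equivFin (R.ι 0)).symm.symm = c := by
        funext j; simp
      rw [this, hc]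
      rfl
    funext j
    have h2 := congrFun h1 (Fintype.equivFin (R.ι 0) j)
    simpa using h2
  | succ i =>
    intro c hc
    obtain ⟨y, hy⟩ : ∃ y : Fin (Fintype.card (R.ι i)) → S,
        ((R.d i).map φ).submatrix (Fintype.equivFin (R.ι (i + 1))).symm
        (Fintype.equivFin (R.ι i)).symm *ᵥ y = (c ∘ (Fintype.equivFin (R.ι (i + 1))).symm) :=
      h (c ∘ (Fintype.equivFin (R.ι (i + 1))).symm) (by
      change ((R.d (i + 1)).map φ).submatrix (Fintype.equivFin (R.ι (i + 1 + 1))).symm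
        (Fintype.equivFin (R.ι (i + 1))).symm *ᵥ (c ∘ (Fintype.equivFin (R.ι (i + 1))).symm) = 0
      rw [Matrix.submatrix_mulVec_equiv]
      have : (c ∘ (Fintype.equivFin (R.ι (i + 1))).symm) ∘
          (Fintype.equivFin (R.ι (i + 1))).symm.symm = c := by
        funext j; simp
      rw [this, hc]
      rfl)
    refine ⟨y ∘ (Fintype.equivFin (R.ι i)), ?_⟩
    rw [Matrix.submatrix_mulVec_equiv] at hy
    funext j
    have := congrFun hy (Fintype.equivFin (R.ι (i + 1)) j)
    simpa using this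

/-! ### permutation modules -/

namespace PermC

open Pool.Agent.TH38.CX.Perm

section blk

variable {c : ℕ} {n n' : Fin c → ℕ} {S : Type} [Ring S]

lemma mulVec_blk (M : ∀ a, Matrix (Fin (n' a)) (Fin (n a)) S) (x : (Σ a, Fin (n a)) → S) (a : Fin c)
    (j : Fin (n' a)) :
    (Matrix.blockDiagonal' M *ᵥ x) ⟨a, j⟩ = (M a *ᵥ (fun i => x ⟨a, i⟩)) j := by
  simp only [Matrix.mulVec, dotProduct]
  rw [Fintype.sum_sigma, Finset.sum_eq_single a]
  · refine Finset.sum_congr rfl fun i _ => ?_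
    rw [Matrix.blockDiagonal'_apply_eq]
  · intro b _ hb
    refine Finset.sum_eq_zero fun i _ => ?_
    rw [Matrix.blockDiagonal'_apply_ne _ _ _ (Ne.symm hb), zero_mul]
  · intro h
    exact absurd (Finset.mem_univ a) h

lemma mblk_eq_zero (M : ∀ a, Matrix (Fin (n' a)) (Fin (n a)) S) (x : (Σ a, Fin (n a)) → S) :
    Matrix.blockDiagonal' M *ᵥ x = 0 ↔ ∀ a, M a *ᵥ (fun i => x ⟨a, i⟩) = 0 := by
  constructor
  · intro h a
    funext j
    rw [← mulVec_blk, h]
    rfl
  · intro h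
    funext ⟨a, j⟩
    rw [mulVec_blk, h a]
    rfl

lemma mexists_blk (M : ∀ a, Matrix (Fin (n' a)) (Fin (n a)) S) (x : (Σ a, Fin (n' a)) → S) :
    (∃ y, Matrix.blockDiagonal' M *ᵥ y = x) ↔ ∀ a, ∃ y, M a *ᵥ y = fun j => x ⟨a, j⟩ := by
  constructor
  · rintro ⟨y, rfl⟩ a
    exact ⟨fun i => y ⟨a, i⟩, funext fun j => (mulVec_blk M y a j).symm⟩
  · intro h
    choose y hy using h
    refine ⟨fun p => y p.1 p.2, ?_⟩
    funext ⟨a, j⟩
    rw [mulVec_blk]
    exact congrFun (hy a) j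

end blk

end PermC

open Pool.Agent.TH38.CX.Perm PermC in
theorem exists_perm_res2 {G : Type} [Group G] {E : Type} [MulAction G E] {c : ℕ} (rep : Fin c → E)
    (hrep : ∀ e : E, ∃! a, e ∈ MulAction.orbit G (rep a))
    (X : ∀ a, FinRes (MulAction.stabilizer G (rep a))) :
    ∃ R : Res G (PM G E), (∀ (S : Type) [Ring S] (φ : MonoidAlgebra ℤ G →+* S) (k : ℕ),
        ExR R φ k ↔ ∀ a, ExAt (X a) (φ.comp (incl (MulAction.stabilizer G (rep a)))) k) ∧
      (∀ (S : Type) [Ring S] (φ : MonoidAlgebra ℤ G →+* S) (k : ℕ),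
        CoExR R φ k ↔ ∀ a, CoEx (X a) (φ.comp (incl (MulAction.stabilizer G (rep a)))) k) ∧
      ∃ L, ∀ j > L, IsEmpty (R.ι j) := by
  classical
  refine ⟨{
    ι := fun i => Σ a, Fin ((X a).n i)
    fin := fun i => inferInstance
    d := fun i => Matrix.blockDiagonal' fun a => ((X a).d i).map (incl (MulAction.stabilizer G (rep a)))
    aug := fun p => sg G (rep p.1) ((X p.1).aug p.2)
    surj := ?_
    exact_zero := ?_
    exact_succ := ?_ }, ?_, ?_, ?_⟩
  · intro m
    refine Finsupp.induction_linear (motive := fun m : PM G E =>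
      ∃ x : (Σ a, Fin ((X a).n 0)) → MonoidAlgebra ℤ G,
        ∑ p, x p • sg G (rep p.1) ((X p.1).aug p.2) = m) m ?_ ?_ ?_
    · exact ⟨0, by simp; rfl⟩
    · rintro m m' ⟨x, rfl⟩ ⟨y, rfl⟩
      refine ⟨x + y, ?_⟩
      simp only [Pi.add_apply, add_smul, Finset.sum_add_distrib]
      rfl
    · intro e r
      obtain ⟨a, ⟨g, hg⟩, -⟩ := hrep e
      choose x0 hx0 using fun b => (X b).surj
      refine ⟨fun p => (if p.1 = a then MonoidAlgebra.single g r else 0) *
        incl (MulAction.stabilizer G (rep p.1)) (x0 p.1 p.2), ?_⟩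
      have h1 : sg G e r = (MonoidAlgebra.single g r : MonoidAlgebra ℤ G) • sg G (rep a) 1 := by
        rw [single_smul_sg, mul_one]
        exact congrArg (fun e => sg G e r) hg.symm
      change _ = sg G e r
      rw [h1]
      apply pev_ext
      intro e'
      obtain ⟨b, ⟨t, rfl⟩, -⟩ := hrep e'
      change pev (t • rep b) _ = pev (t • rep b) _
      rw [sum_eval rep X hrep]
      simp only [kap_mul_incl]
      by_cases hb : b = a
      · subst hb
        rw [pm_eval, mul_one]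
        simp only [if_true]
        have h2 := eps_smul (X b) (kap (MulAction.stabilizer G (rep b)) t (MonoidAlgebra.single g r))
          (x0 b)
        have h3 : eps (X b) (x0 b) = 1 := hx0 b
        rw [h3, mul_one] at h2
        exact h2
      · rw [pm_off]
        · simp [eps, hb]
        · intro h
          exact hb ((hrep (t • rep b)).unique ⟨t, rfl⟩ h)
  · intro x
    rw [exists_blk]
    have h1 : ∀ a, (∃ y, y ᵥ* ((X a).d 0).map (incl (MulAction.stabilizer G (rep a))) =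
        fun j => x ⟨a, j⟩) ↔ ∀ t, eps (X a) (fun j => kap _ t (x ⟨a, j⟩)) = 0 :=
      fun a => (ex_zero _ (X a) _).symm
    simp only [h1]
    constructor
    · intro h a t
      rw [← sum_eval rep X hrep, h, map_zero]
    · intro h
      apply pev_ext
      intro e'
      obtain ⟨b, ⟨t, rfl⟩, -⟩ := hrep e'
      change pev (t • rep b) _ = pev (t • rep b) _
      rw [sum_eval rep X hrep, h, map_zero]
  · intro i x
    rw [exists_blk, blk_eq_zero]
    exact forall_congr' fun a => ex_succ _ (X a) i _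
  · intro S _ φ k
    have hm : ∀ i, (Matrix.blockDiagonal' fun a => ((X a).d i).map
        (incl (MulAction.stabilizer G (rep a)))).map φ =
        Matrix.blockDiagonal' fun a => ((X a).d i).map
          (φ.comp (incl (MulAction.stabilizer G (rep a)))) := by
      intro i
      rw [Matrix.blockDiagonal'_map _ _ (map_zero φ)]
      rfl
    cases k with
    | zero =>
      change (∀ x, ∃ y, y ᵥ* _ = x) ↔ ∀ a, ∀ x, ∃ y, y ᵥ* _ = x
      rw [hm]
      constructor
      · intro h a x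
        have h1 := (exists_blk _ _).1 (h (fun p => if hp : p.1 = a then x (hp ▸ p.2) else 0)) a
        simpa using h1
      · intro h x
        exact (exists_blk _ _).2 fun a => h a _
    | succ k =>
      change (∀ x, x ᵥ* _ = 0 → ∃ y, y ᵥ* _ = x) ↔ ∀ a, ∀ x, x ᵥ* _ = 0 → ∃ y, y ᵥ* _ = x
      rw [hm, hm]
      constructor
      · intro h a x hx
        have h1 := (exists_blk _ _).1 (h (fun p => if hp : p.1 = a then x (hp ▸ p.2) else 0) (by
          rw [blk_eq_zero]
          intro b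
          by_cases hb : b = a
          · subst hb
            simpa using hx
          · simp only [hb, dite_false]
            exact Matrix.zero_vecMul _)) a
        simpa using h1
      · intro h x hx
        rw [blk_eq_zero] at hx
        exact (exists_blk _ _).2 fun a => h a _ (hx a)
  · intro S _ φ k
    have hm : ∀ i, (Matrix.blockDiagonal' fun a => ((X a).d i).map
        (incl (MulAction.stabilizer G (rep a)))).map φ =
        Matrix.blockDiagonal' fun a => ((X a).d i).map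
          (φ.comp (incl (MulAction.stabilizer G (rep a)))) := by
      intro i
      rw [Matrix.blockDiagonal'_map _ _ (map_zero φ)]
      rfl
    cases k with
    | zero =>
      change (∀ x, _ *ᵥ x = 0 → x = 0) ↔ ∀ a, ∀ x, _ *ᵥ x = 0 → x = 0
      rw [hm]
      constructor
      · intro h a x hx
        have h1 := h (fun p => if hp : p.1 = a then x (hp ▸ p.2) else 0) (by
          rw [mblk_eq_zero]
          intro b
          by_cases hb : b = a
          · subst hb
            simpa using hx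
          · simp only [hb, dite_false]
            exact Matrix.mulVec_zero _)
        funext j
        simpa using congrFun h1 ⟨a, j⟩
      · intro h x hx
        rw [mblk_eq_zero] at hx
        funext ⟨a, j⟩
        exact congrFun (h a _ (hx a)) j
    | succ k =>
      change (∀ x, _ *ᵥ x = 0 → ∃ y, _ *ᵥ y = x) ↔ ∀ a, ∀ x, _ *ᵥ x = 0 → ∃ y, _ *ᵥ y = x
      rw [hm, hm]
      constructor
      · intro h a x hx
        have h1 := (mexists_blk _ _).1 (h (fun p => if hp : p.1 = a then x (hp ▸ p.2) else 0) (by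
          rw [mblk_eq_zero]
          intro b
          by_cases hb : b = a
          · subst hb
            simpa using hx
          · simp only [hb, dite_false]
            exact Matrix.mulVec_zero _)) a
        simpa using h1
      · intro h x hx
        rw [mblk_eq_zero] at hx
        exact (mexists_blk _ _).2 fun a => h a _ (hx a)
  · refine ⟨∑ a, (X a).len, fun j hj => ⟨fun p => ?_⟩⟩
    have h1 : (X p.1).len ≤ ∑ a, (X a).len :=
      Finset.single_le_sum (f := fun a => (X a).len) (fun _ _ => Nat.zero_le _) (Finset.mem_univ p.1)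
    have h2 := (X p.1).n_eq_zero j (by omega)
    exact (Fin.cast h2 p.2).elim0

end

end Pool.Agent.L0h31.ZB
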