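import Pool.Agent.L0h31.ZB.Z6

/-!
Subgroups which are Poincaré duality groups: cohomology with coefficients in the reduced
`C*`-algebra of the whole group.
-/

set_option autoImplicit false
set_option linter.unusedSectionVars false

open scoped Matrix

namespace Pool.Agent.L0h31.ZB

open Pool.Agent.H919R4.ZS
open Pool.Agent.TH38.CX
open Pool.Agent.TH38.ZT (ExAt exAt_iff ex_indep ex_comp)

noncomputable section

lemma coEx_of_ex_le {G : Type} [Group G] (X : FinRes G) {S : Type} [Ring S]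
    (φ : MonoidAlgebra ℤ G →+* S) (i : ℕ) (hX : ∀ j ≤ i, ExAt X φ j) : CoEx X φ i := by
  obtain ⟨s, hs0, hs⟩ := Pool.Agent.TH38.ZT.contraction' X φ i hX
  cases i with
  | zero =>
    intro c hc
    have h1 : (s 0 * (X.d 0).map φ) *ᵥ c = c := by rw [hs0, Matrix.one_mulVec]
    rw [← h1, ← Matrix.mulVec_mulVec, hc, Matrix.mulVec_zero]
  | succ i =>
    intro c hc
    refine ⟨s i *ᵥ c, ?_⟩
    have h1 : ((X.d i).map φ * s i + s (i + 1) * (X.d (i + 1)).map φ) *ᵥ c = c := by
      rw [hs i le_rfl, Matrix.one_mulVec]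
    rw [Matrix.add_mulVec, ← Matrix.mulVec_mulVec, ← Matrix.mulVec_mulVec, hc,
      Matrix.mulVec_zero, add_zero] at h1
    exact h1

variable {G : Type} [Group G] {H : Subgroup G}

lemma iv_incl (a : MonoidAlgebra ℤ H) : iv (incl H a) = incl H (iv a) := by
  refine MonoidAlgebra.induction_linear a ?_ ?_ ?_
  · rw [map_zero, map_zero, map_zero, map_zero]
  · intro x y hx hy
    rw [map_add, map_add, map_add, map_add, hx, hy]
  · intro h r
    rw [iv_single, Perm.incl_single, Perm.incl_single, iv_single]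
    rfl

lemma e_vecMul_gen {S : Type} [Ring S] (φ' : MonoidAlgebra ℤ H →+* S) (e : S →+ RedC H)
    (he : ∀ (x : S) (a : MonoidAlgebra ℤ H), e (x * φ' a) = e x * toRed H a)
    {a b : ℕ} (y : Fin a → S) (D : Matrix (Fin a) (Fin b) (MonoidAlgebra ℤ H)) (j : Fin b) :
    e ((y ᵥ* D.map φ') j) = ((fun k => e (y k)) ᵥ* D.map (toRed H)) j := by
  simp only [Matrix.vecMul, dotProduct, map_sum, Matrix.map_apply]
  exact Finset.sum_congr rfl fun k _ => he _ _

lemma ex_small_gen (X : FinRes H) {S : Type} [Ring S] (φ' : MonoidAlgebra ℤ H →+* S)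
    (ψ : RedC H →+* S) (e : S →+ RedC H) (h1 : ψ.comp (toRed H) = φ') (h2 : ∀ x, e (ψ x) = x)
    (h3 : ∀ (x : S) (a : MonoidAlgebra ℤ H), e (x * φ' a) = e x * toRed H a) (k : ℕ)
    (h : ExAt X φ' k) : ExAt X (toRed H) k := by
  cases k with
  | zero =>
    intro x
    obtain ⟨y, hy⟩ := h (fun j => ψ (x j))
    refine ⟨fun j => e (y j), funext fun j => ?_⟩
    rw [← e_vecMul_gen φ' e h3, hy, h2]
  | succ k =>
    intro x hx
    obtain ⟨y, hy⟩ := h (fun j => ψ (x j)) (by
      funext j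
      have h4 : ((fun j => ψ (x j)) ᵥ* (X.d k).map φ') j =
          ψ ((x ᵥ* (X.d k).map (toRed H)) j) := by
        rw [← h1]
        simp only [Matrix.vecMul, dotProduct, map_sum, Matrix.map_apply, RingHom.comp_apply,
          map_mul]
      rw [h4, hx]
      exact map_zero ψ)
    refine ⟨fun j => e (y j), funext fun j => ?_⟩
    rw [← e_vecMul_gen φ' e h3, hy, h2]

/-- the complex is exact in the degrees at most `j` -/
def ExTo {H : Type} [Group H] (X : FinRes H) (j : ℕ) : Prop := ∀ l ≤ j, ExAt X (toRed H) l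

lemma ex_big' (X : FinRes H) (k : ℕ) (h : ExTo X k) :
    ExAt X ((toRed G).comp (incl H)) k := by
  obtain ⟨ψ, e, h1, -, -⟩ := exists_cond H
  rw [← h1]
  exact ex_comp X (toRed H) ψ k h k le_rfl

/-- the Poincaré duality of a subgroup, with coefficients in `C*_r(G)` -/
theorem pd_co (X : FinRes H) (m : ℕ) (hlen : X.len ≤ m)
    (hcoh : ∀ k < m, Subsingleton (X.cohomology k)) (hm : Nonempty (X.cohomology m ≃+ ℤ))
    (i j : ℕ) (hij : i + j = m) :
    (ExTo X j → CoEx X ((toRed G).comp (incl H)) i) ∧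
    (CoEx X ((toRed G).comp (incl H)) i → ExAt X (toRed H) j) := by
  obtain ⟨e0⟩ := hm
  obtain ⟨σ, hσ⟩ := pd_iff X m hlen hcoh e0
  obtain ⟨ψ, e, h1, h2, h3⟩ := exists_cond H
  have key := hσ ((toRed G).comp (incl H)) (((toRed G).comp (incl H)).comp σ.θ) st st_st st_mul
    (by
      intro a
      change st (toRed G (incl H a)) = toRed G (incl H (σ.θ (σ.κ a)))
      rw [st_toRed, iv_incl, Sg.κ_apply, Sg.θ_θ]) i j hij
  have hψ : (ψ.comp σ.α).comp (toRed H) = ((toRed G).comp (incl H)).comp σ.θ := by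
    refine RingHom.ext fun a => ?_
    change ψ (σ.α (toRed H a)) = toRed G (incl H (σ.θ a))
    rw [Sg.α_toRed]
    exact congrArg (fun f : MonoidAlgebra ℤ H →+* RedC G => f (σ.θ a)) h1
  constructor
  · intro h
    rw [key, ← hψ]
    exact ex_comp X (toRed H) (ψ.comp σ.α) j h j le_rfl
  · intro h
    refine ex_small_gen X (((toRed G).comp (incl H)).comp σ.θ) (ψ.comp σ.α)
      (σ.α.toAddMonoidHom.comp e) hψ ?_ ?_ j (key.1 h)
    · intro x
      change σ.α (e (ψ (σ.α x))) = x
      rw [h2, Sg.α_α]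
    · intro x a
      change σ.α (e (x * toRed G (incl H (σ.θ a)))) = σ.α (e x) * toRed H a
      rw [h3, map_mul, Sg.α_toRed, Sg.θ_θ]

/-- the first degree in which a Poincaré duality group is not acyclic is at most half of the
dimension -/
theorem pd_half (X : FinRes H) (m : ℕ) (hlen : X.len ≤ m)
    (hcoh : ∀ k < m, Subsingleton (X.cohomology k)) (hm : Nonempty (X.cohomology m ≃+ ℤ))
    (r : ℕ) (hr : m ≤ r + r + 1) (h : ExTo X r) (j : ℕ) : ExAt X (toRed H) j := by
  rcases Nat.lt_or_ge m j with h1 | h1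
  · exact exAt_of_len X _ j (by omega)
  · rcases Nat.lt_or_ge r j with h2 | h2
    · have h3 : CoEx X ((toRed G).comp (incl H)) (m - j) :=
        coEx_of_ex_le X _ (m - j) fun l hl => ex_big' X l fun l' hl' => h l' (by omega)
      exact (pd_co X m hlen hcoh hm (m - j) j (by omega)).2 h3
    · exact h j h2

end

end Pool.Agent.L0h31.ZB
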