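import Pool.Agent.L0h31.ZB.Z7

/-!
Groups acting on acyclic complexes with Poincaré duality vertex groups.
-/

set_option autoImplicit false
set_option linter.unusedSectionVars false

open scoped Matrix

namespace Pool.Agent.L0h31.ZB

open Pool.Agent.H919R4.ZS
open Pool.Agent.TH38.CX
open Pool.Agent.TH38.ZT (ExAt exAt_iff ex_indep ex_comp)

noncomputable section

variable {G : Type} [Group G]

section levels

variable {S : Type} [Ring S] (φ : MonoidAlgebra ℤ G →+* S)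

lemma coExR_zeroRes (M : Type) [AddCommGroup M] [Module (MonoidAlgebra ℤ G) M] [Subsingleton M]
    (k : ℕ) : CoExR (zeroRes (G := G) M) φ k := by
  cases k with
  | zero => exact fun x _ => funext fun a => Empty.elim a
  | succ k => exact fun x _ => ⟨fun a => Empty.elim a, funext fun a => Empty.elim a⟩

variable {M : Type} [AddCommGroup M] [Module (MonoidAlgebra ℤ G) M]
variable {M' : Type} [AddCommGroup M'] [Module (MonoidAlgebra ℤ G) M']
variable {M'' : Type} [AddCommGroup M''] [Module (MonoidAlgebra ℤ G) M'']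

lemma bdd_cone (X' : Res G M') (X : Res G M)
    (f : M' →ₗ[MonoidAlgebra ℤ G] M) (g : M →ₗ[MonoidAlgebra ℤ G] M'')
    (hf : Function.Injective f) (hg : Function.Surjective g)
    (hfg : ∀ m, g m = 0 ↔ ∃ m', f m' = m)
    (F : ∀ i, Matrix (X'.ι i) (X.ι i) (MonoidAlgebra ℤ G))
    (hF0 : ∀ k, X.ev (F 0 k) = f (X'.aug k)) (hF : ∀ i, X'.d i * F i = F (i + 1) * X.d i)
    (hb' : Bdd X') (hb : Bdd X) : Bdd (cone X' X f g hf hg hfg F hF0 hF) := by
  obtain ⟨L', hL'⟩ := hb'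
  obtain ⟨L, hL⟩ := hb
  refine ⟨L' + L + 1, fun l hl => ?_⟩
  cases l with
  | zero => omega
  | succ l =>
    have e1 := hL' l (by omega)
    have e2 := hL (l + 1) (by omega)
    change IsEmpty (X'.ι l ⊕ X.ι (l + 1))
    exact isEmpty_sum.2 ⟨e1, e2⟩

variable (t : ℕ)

theorem coh_ind (Y : AcyclicGComplex G) (RM : ∀ i, Res G (PM G (Y.E i)))
    (hRM : ∀ i, 0 < i → ∀ q, t + 1 ≤ q + i → CoExR (RM i) φ q) (hb : ∀ i, Bdd (RM i)) :
    ∀ j i, i + j = Y.len → ∃ R : Res G (LinearMap.range (bdl Y i)),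
      (∀ q, t ≤ q + i → CoExR R φ q) ∧ Bdd R := by
  intro j
  induction j with
  | zero =>
    intro i hi
    have hE : IsEmpty (Y.E (i + 1)) := Y.isEmpty _ (by omega)
    have hs : Subsingleton (PM G (Y.E (i + 1))) :=
      inferInstanceAs (Subsingleton (Y.E (i + 1) →₀ ℤ))
    have hs2 : Subsingleton (LinearMap.range (bdl Y i)) := by
      refine ⟨fun a b => ?_⟩
      obtain ⟨a, x, rfl⟩ := a
      obtain ⟨b, y, rfl⟩ := b
      exact Subtype.ext (by rw [Subsingleton.elim x y])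
    exact ⟨zeroRes _, fun q _ => coExR_zeroRes φ _ _,
      0, fun _ _ => inferInstanceAs (IsEmpty Empty)⟩
  | succ j ih =>
    intro i hi
    obtain ⟨R', hQ', hb'⟩ := ih (i + 1) (by omega)
    obtain ⟨F, hF0, hF⟩ := exists_chain R' (RM (i + 1))
      (LinearMap.range (bdl Y (i + 1))).subtype
    have hfg : ∀ m, (bdl Y i).rangeRestrict m = 0 ↔
        ∃ m', (LinearMap.range (bdl Y (i + 1))).subtype m' = m := by
      intro m
      constructor
      · intro hm
        have h1 : bdl Y i m = 0 := congrArg Subtype.val hm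
        obtain ⟨y, hy⟩ := (Y.exact_succ i m).1 h1
        exact ⟨⟨m, y, hy⟩, rfl⟩
      · rintro ⟨⟨m', y, hy⟩, rfl⟩
        apply Subtype.ext
        exact (Y.exact_succ i m').2 ⟨y, hy⟩
    refine ⟨cone R' (RM (i + 1)) (LinearMap.range (bdl Y (i + 1))).subtype
      (bdl Y i).rangeRestrict (Submodule.injective_subtype _) (LinearMap.surjective_rangeRestrict _)
      hfg F hF0 hF, ?_, bdd_cone _ _ _ _ _ _ _ _ _ _ hb' (hb (i + 1))⟩
    intro q hq
    cases q with
    | zero => exact co1_zero _ _ _ _ _ _ _ F hF0 hF φ (hRM (i + 1) (by omega) 0 (by omega))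
    | succ q =>
      exact co1 _ _ _ _ _ _ _ F hF0 hF φ q (hRM (i + 1) (by omega) (q + 1) (by omega))
        (hQ' q (by omega))

theorem coh_res (Y : AcyclicGComplex G) (RM : ∀ i, Res G (PM G (Y.E i)))
    (hRM : ∀ i, 0 < i → ∀ q, t + 1 ≤ q + i → CoExR (RM i) φ q) (hb : ∀ i, Bdd (RM i))
    (h0 : ¬ CoExR (RM 0) φ t) :
    ∃ R : Res G (Triv G), ¬ CoExR R φ t ∧ Bdd R := by
  obtain ⟨R', hQ', hb'⟩ := coh_ind φ t Y RM hRM hb Y.len 0 (by omega)
  obtain ⟨e0⟩ := Y.nonempty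
  obtain ⟨F, hF0, hF⟩ := exists_chain R' (RM 0) (LinearMap.range (bdl Y 0)).subtype
  have hg : Function.Surjective (sumMap (G := G) (Y.E 0)) := by
    intro m
    refine ⟨ofF (Finsupp.single e0 (tv m)), ?_⟩
    change Finsupp.sum (Finsupp.single e0 (tv m)) (fun _ r => r) = tv m
    exact Finsupp.sum_single_index rfl
  have hfg : ∀ m, sumMap (G := G) (Y.E 0) m = 0 ↔
      ∃ m', (LinearMap.range (bdl Y 0)).subtype m' = m := by
    intro m
    constructor
    · intro hm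
      obtain ⟨y, hy⟩ := (Y.exact_zero m).1 hm
      exact ⟨⟨m, y, hy⟩, rfl⟩
    · rintro ⟨⟨m', y, hy⟩, rfl⟩
      exact (Y.exact_zero m').2 ⟨y, hy⟩
  refine ⟨cone R' (RM 0) (LinearMap.range (bdl Y 0)).subtype (sumMap (Y.E 0))
    (Submodule.injective_subtype _) hg hfg F hF0 hF, ?_,
    bdd_cone _ _ _ _ _ _ _ _ _ _ hb' (hb 0)⟩
  intro hc
  exact h0 (co2 _ _ _ _ _ _ _ F hF0 hF φ t hc (hQ' t (by omega)))

end levels

/-- if the cochain complex is not exact the group is not acyclic -/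
lemma nontriv_of_co (R : Res G (Triv G)) (hb : Bdd R) (t : ℕ) (h : ¬ CoExR R (toRed G) t)
    (X' : FinRes G) : ∃ j, Nontrivial (X'.homology (toRed G) j) := by
  obtain ⟨L, hL⟩ := hb
  by_contra hcon
  push Not at hcon
  refine h (coExR_of_toFin R L hL (toRed G) t (coEx_of_ex _ _ (fun i => ?_) t))
  refine ex_indep X' (toFin R L hL) (toRed G) i ((exAt_iff _ _ _).2 ?_)
  exact hcon i

/-- if the complex is exact the group is acyclic -/
lemma triv_of_ex (R : Res G (Triv G)) (hb : Bdd R) (h : ∀ j, ExR R (toRed G) j)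
    (X' : FinRes G) (j : ℕ) : Subsingleton (X'.homology (toRed G) j) := by
  obtain ⟨L, hL⟩ := hb
  exact (exAt_iff _ _ _).1 (ex_indep (toFin R L hL) X' (toRed G) j
    (toFin_of_exR R L hL (toRed G) j (h j)))

/-- localisation at a vertex, for cohomology -/
theorem coh_main (Y : AcyclicGComplex G) (c : ℕ → ℕ) (rep : ∀ i, Fin (c i) → Y.E i)
    (hrep : ∀ i (e : Y.E i), ∃! a, e ∈ MulAction.orbit G (rep i a))
    (X : ∀ i a, FinRes (MulAction.stabilizer G (rep i a))) (t : ℕ) (a₀ : Fin (c 0))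
    (h1 : ¬ CoEx (X 0 a₀) ((toRed G).comp (incl (MulAction.stabilizer G (rep 0 a₀)))) t)
    (h2 : ∀ i, 0 < i → ∀ a q, t + 1 ≤ q + i →
      CoEx (X i a) ((toRed G).comp (incl (MulAction.stabilizer G (rep i a)))) q) :
    Nonempty (FinRes G) ∧ ∀ X' : FinRes G, ∃ j, Nontrivial (X'.homology (toRed G) j) := by
  choose RM hRM hRC hb using fun i => exists_perm_res2 (rep i) (hrep i) (X i)
  obtain ⟨R, hR, hbR⟩ := coh_res (toRed G) t Y RM
    (fun i hi q hq => (hRC i (RedC G) (toRed G) q).2 fun a => h2 i hi a q hq) hb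
    (fun h => h1 ((hRC 0 (RedC G) (toRed G) t).1 h a₀))
  obtain ⟨L, hL⟩ := hbR
  exact ⟨⟨toFin R L hL⟩, nontriv_of_co R ⟨L, hL⟩ t hR⟩

/-- if all the stabilisers are acyclic then so is the group -/
theorem ex_all {S : Type} [Ring S] (φ : MonoidAlgebra ℤ G →+* S) (Y : AcyclicGComplex G) (RM : ∀ i, Res G (PM G (Y.E i)))
    (hRM : ∀ i q, ExR (RM i) φ q) (hb : ∀ i, Bdd (RM i)) :
    ∀ j i, i + j = Y.len → ∃ R : Res G (LinearMap.range (bdl Y i)),
      (∀ q, ExR R φ q) ∧ Bdd R := by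
  intro j
  induction j with
  | zero =>
    intro i hi
    have hE : IsEmpty (Y.E (i + 1)) := Y.isEmpty _ (by omega)
    have hs : Subsingleton (PM G (Y.E (i + 1))) :=
      inferInstanceAs (Subsingleton (Y.E (i + 1) →₀ ℤ))
    have hs2 : Subsingleton (LinearMap.range (bdl Y i)) := by
      refine ⟨fun a b => ?_⟩
      obtain ⟨a, x, rfl⟩ := a
      obtain ⟨b, y, rfl⟩ := b
      exact Subtype.ext (by rw [Subsingleton.elim x y])
    exact ⟨zeroRes _, fun q => exR_zeroRes _ _ _,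
      0, fun _ _ => inferInstanceAs (IsEmpty Empty)⟩
  | succ j ih =>
    intro i hi
    obtain ⟨R', hQ', hb'⟩ := ih (i + 1) (by omega)
    obtain ⟨F, hF0, hF⟩ := exists_chain R' (RM (i + 1))
      (LinearMap.range (bdl Y (i + 1))).subtype
    have hfg : ∀ m, (bdl Y i).rangeRestrict m = 0 ↔
        ∃ m', (LinearMap.range (bdl Y (i + 1))).subtype m' = m := by
      intro m
      constructor
      · intro hm
        have h1 : bdl Y i m = 0 := congrArg Subtype.val hm
        obtain ⟨y, hy⟩ := (Y.exact_succ i m).1 h1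
        exact ⟨⟨m, y, hy⟩, rfl⟩
      · rintro ⟨⟨m', y, hy⟩, rfl⟩
        apply Subtype.ext
        exact (Y.exact_succ i m').2 ⟨y, hy⟩
    refine ⟨cone R' (RM (i + 1)) (LinearMap.range (bdl Y (i + 1))).subtype
      (bdl Y i).rangeRestrict (Submodule.injective_subtype _) (LinearMap.surjective_rangeRestrict _)
      hfg F hF0 hF, ?_, bdd_cone _ _ _ _ _ _ _ _ _ _ hb' (hb (i + 1))⟩
    intro q
    cases q with
    | zero => exact les3_zero _ _ _ _ _ _ _ F hF0 hF _ (hRM (i + 1) 0)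
    | succ q => exact les3 _ _ _ _ _ _ _ F hF0 hF _ q (hRM (i + 1) (q + 1)) (hQ' q)

theorem ex_all_res {S : Type} [Ring S] (φ : MonoidAlgebra ℤ G →+* S) (Y : AcyclicGComplex G) (RM : ∀ i, Res G (PM G (Y.E i)))
    (hRM : ∀ i q, ExR (RM i) φ q) (hb : ∀ i, Bdd (RM i)) :
    ∃ R : Res G (Triv G), (∀ q, ExR R φ q) ∧ Bdd R := by
  obtain ⟨R', hQ', hb'⟩ := ex_all φ Y RM hRM hb Y.len 0 (by omega)
  obtain ⟨e0⟩ := Y.nonempty
  obtain ⟨F, hF0, hF⟩ := exists_chain R' (RM 0) (LinearMap.range (bdl Y 0)).subtype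
  have hg : Function.Surjective (sumMap (G := G) (Y.E 0)) := by
    intro m
    refine ⟨ofF (Finsupp.single e0 (tv m)), ?_⟩
    change Finsupp.sum (Finsupp.single e0 (tv m)) (fun _ r => r) = tv m
    exact Finsupp.sum_single_index rfl
  have hfg : ∀ m, sumMap (G := G) (Y.E 0) m = 0 ↔
      ∃ m', (LinearMap.range (bdl Y 0)).subtype m' = m := by
    intro m
    constructor
    · intro hm
      obtain ⟨y, hy⟩ := (Y.exact_zero m).1 hm
      exact ⟨⟨m, y, hy⟩, rfl⟩
    · rintro ⟨⟨m', y, hy⟩, rfl⟩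
      exact (Y.exact_zero m').2 ⟨y, hy⟩
  refine ⟨cone R' (RM 0) (LinearMap.range (bdl Y 0)).subtype (sumMap (Y.E 0))
    (Submodule.injective_subtype _) hg hfg F hF0 hF, ?_,
    bdd_cone _ _ _ _ _ _ _ _ _ _ hb' (hb 0)⟩
  intro q
  cases q with
  | zero => exact les3_zero _ _ _ _ _ _ _ F hF0 hF _ (hRM 0 0)
  | succ q => exact les3 _ _ _ _ _ _ _ F hF0 hF _ q (hRM 0 (q + 1)) (hQ' q)

theorem all_acyclic (Y : AcyclicGComplex G) (c : ℕ → ℕ) (rep : ∀ i, Fin (c i) → Y.E i)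
    (hrep : ∀ i (e : Y.E i), ∃! a, e ∈ MulAction.orbit G (rep i a))
    (X : ∀ i a, FinRes (MulAction.stabilizer G (rep i a)))
    (h : ∀ i a j, ExAt (X i a) (toRed _) j) (X' : FinRes G) (j : ℕ) :
    Subsingleton (X'.homology (toRed G) j) := by
  choose RM hRM hRC hb using fun i => exists_perm_res2 (rep i) (hrep i) (X i)
  obtain ⟨R, hR, hbR⟩ := ex_all_res (toRed G) Y RM
    (fun i q => (hRM i (RedC G) (toRed G) q).2 fun a => ex_big' (X i a) q fun l _ => h i a l) hb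
  exact triv_of_ex R hbR hR X' j

end

end Pool.Agent.L0h31.ZB
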