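import Pool.Agent.L0h31.ZB.Z8

/-!
Graphs of Poincaré duality groups.
-/

set_option autoImplicit false
set_option linter.unusedSectionVars false

open scoped Matrix

namespace Pool.Agent.L0h31.ZB

open Pool.Agent.H919R4.ZS
open Pool.Agent.TH38.CX
open Pool.Agent.TH38.ZT (ExAt exAt_iff ex_indep ex_comp)

/-- The group `H`, with the finite free resolution `X`, is a Poincaré duality group of dimension
`m` (orientable or not): `X` has length at most `m`, `H^k(H; ℤ[H]) = 0` for `k < m` and
`H^m(H; ℤ[H]) ≅ ℤ`. -/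
structure PDim {H : Type} [Group H] (X : FinRes H) (m : ℕ) : Prop where
  len : X.len ≤ m
  low : ∀ k < m, Subsingleton (X.cohomology k)
  top : Nonempty (X.cohomology m ≃+ ℤ)

noncomputable section

variable {G : Type} [Group G]

lemma not_ex_iff {H : Type} [Group H] (X : FinRes H) (j : ℕ) :
    ¬ ExAt X (toRed H) j ↔ Nontrivial (X.homology (toRed H) j) := by
  rw [exAt_iff, not_subsingleton_iff_nontrivial]

lemma not_co {H : Subgroup G} (X : FinRes H) (m : ℕ) (hX : PDim X m) (i j : ℕ) (hij : i + j = m)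
    (h : ¬ ExAt X (toRed H) j) : ¬ CoEx X ((toRed G).comp (incl H)) i :=
  fun h1 => h ((pd_co X m hX.len hX.low hX.top i j hij).2 h1)

lemma half_le {H : Subgroup G} (X : FinRes H) (m : ℕ) (hX : PDim X m) (j : ℕ)
    (h : ¬ ExAt X (toRed H) j) (hlow : ∀ l < j, ExAt X (toRed H) l) : j + j ≤ m := by
  cases j with
  | zero => omega
  | succ j =>
    by_contra hcon
    exact h (pd_half X m hX.len hX.low hX.top j (by omega) (fun l hl => hlow l (by omega)) _)

/-- one Poincaré duality group among the stabilisers of the vertices -/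
theorem vertex_pd (Y : AcyclicGComplex G) (c : ℕ → ℕ) (rep : ∀ i, Fin (c i) → Y.E i)
    (hrep : ∀ i (e : Y.E i), ∃! a, e ∈ MulAction.orbit G (rep i a))
    (X : ∀ i a, FinRes (MulAction.stabilizer G (rep i a))) (a₀ : Fin (c 0)) (m j : ℕ)
    (hm : PDim (X 0 a₀) m) (hj : Nontrivial ((X 0 a₀).homology (toRed _) j))
    (hlen : ∀ i, 0 < i → ∀ a, (X i a).len + i ≤ max (m - j) ((m + 1) / 2)) :
    Nonempty (FinRes G) ∧ ∀ X' : FinRes G, ∃ j, Nontrivial (X'.homology (toRed G) j) := by
  classical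
  have hex : ∃ j, ¬ ExAt (X 0 a₀) (toRed _) j := ⟨j, (not_ex_iff _ _).2 hj⟩
  obtain ⟨j', h1, h2⟩ : ∃ j', ¬ ExAt (X 0 a₀) (toRed _) j' ∧
      ∀ l < j', ExAt (X 0 a₀) (toRed _) l :=
    ⟨Nat.find hex, Nat.find_spec hex, fun l hl => not_not.1 (Nat.find_min hex hl)⟩
  have h3 : j' ≤ j := by
    by_contra hcon
    exact (not_ex_iff _ _).2 hj (h2 j (by omega))
  have h4 := half_le (X 0 a₀) m hm j' h1 h2
  refine coh_main Y c rep hrep X (m - j') a₀ (not_co _ m hm (m - j') j' (by omega) h1) ?_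
  intro i hi a q hq
  have h5 := hlen i hi a
  have h6 : max (m - j) ((m + 1) / 2) ≤ m - j' := max_le (by omega) (by omega)
  exact coEx_of_len _ _ q (by omega)

/-- the resolution of the trivial module -/
theorem exists_finRes (Y : AcyclicGComplex G) (c : ℕ → ℕ) (rep : ∀ i, Fin (c i) → Y.E i)
    (hrep : ∀ i (e : Y.E i), ∃! a, e ∈ MulAction.orbit G (rep i a))
    (X : ∀ i a, FinRes (MulAction.stabilizer G (rep i a))) : Nonempty (FinRes G) := by
  choose RM hRM hRC hb using fun i => exists_perm_res2 (rep i) (hrep i) (X i)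
  let φ : MonoidAlgebra ℤ G →+* PUnit.{1} :=
    { toFun := fun _ => 0
      map_one' := rfl
      map_mul' := fun _ _ => rfl
      map_zero' := rfl
      map_add' := fun _ _ => rfl }
  obtain ⟨R, hR, L, hL⟩ := ex_all_res φ Y RM (fun i q => by
    cases q with
    | zero => exact fun x => ⟨0, Subsingleton.elim _ _⟩
    | succ q => exact fun x _ => ⟨0, Subsingleton.elim _ _⟩) hb
  exact ⟨toFin R L hL⟩

/-- graphs of Poincaré duality groups -/
theorem tree_pd (Y : AcyclicGComplex G) (c : ℕ → ℕ) (rep : ∀ i, Fin (c i) → Y.E i)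
    (hrep : ∀ i (e : Y.E i), ∃! a, e ∈ MulAction.orbit G (rep i a))
    (X : ∀ i a, FinRes (MulAction.stabilizer G (rep i a))) (hY : Y.len ≤ 1)
    (k : Fin (c 0) → ℕ) (hk : ∀ a, PDim (X 0 a) (k a))
    (he : ∀ b : Fin (c 1), (∃ m, PDim (X 1 b) m ∧ ∀ a, m < k a) ∨
      ∀ a, (X 1 b).len + 1 ≤ (k a + 1) / 2)
    (h : ∃ i a j, Nontrivial ((X i a).homology (toRed _) j)) (X' : FinRes G) :
    ∃ j, Nontrivial (X'.homology (toRed G) j) := by
  classical
  have hc : ∀ i, 1 < i → ∀ a : Fin (c i), False := fun i hi a =>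
    (Y.isEmpty i (by omega)).false (rep i a)
  have hex : ∃ j, ∃ i a, ¬ ExAt (X i a) (toRed _) j := by
    obtain ⟨i, a, j, hj⟩ := h
    exact ⟨j, i, a, (not_ex_iff _ _).2 hj⟩
  obtain ⟨N, ⟨i, a, hN⟩, hmin⟩ : ∃ N, (∃ i a, ¬ ExAt (X i a) (toRed _) N) ∧
      ∀ l < N, ∀ i a, ExAt (X i a) (toRed _) l :=
    ⟨Nat.find hex, Nat.find_spec hex, fun l hl i a => by
      by_contra hcon
      exact Nat.find_min hex hl ⟨i, a, hcon⟩⟩
  by_cases hv : ∃ a : Fin (c 0), ¬ ExAt (X 0 a) (toRed _) N
  · -- a vertex is not acyclic in degree `N`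
    obtain ⟨a, ha⟩ := hv
    have h1 : N + N ≤ k a := half_le (X 0 a) (k a) (hk a) N ha fun l hl => hmin l hl 0 a
    refine (coh_main Y c rep hrep X (k a - N) a
      (not_co _ (k a) (hk a) (k a - N) N (by omega) ha) ?_).2 X'
    intro i hi b q hq
    rcases Nat.lt_or_ge 1 i with h2 | h2
    · exact (hc i h2 b).elim
    · obtain rfl : i = 1 := by omega
      rcases he b with ⟨m, hm, hlt⟩ | hlen
      · have h3 := hlt a
        rcases Nat.lt_or_ge m q with h4 | h4
        · exact coEx_of_len _ _ q (lt_of_le_of_lt hm.len h4)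
        · refine (pd_co _ m hm.len hm.low hm.top q (m - q) (by omega)).1 fun l hl => ?_
          exact hmin l (by omega) 1 b
      · have h3 := hlen a
        exact coEx_of_len _ _ q (by omega)
  · -- all the vertices are acyclic in degree `N`
    have hv' : ∀ a : Fin (c 0), ExAt (X 0 a) (toRed _) N := fun a => by
      by_contra hcon
      exact hv ⟨a, hcon⟩
    have hi : i = 1 := by
      rcases Nat.lt_or_ge 1 i with h2 | h2
      · exact (hc i h2 a).elim
      · rcases Nat.eq_zero_or_pos i with h3 | h3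
        · subst h3
          exact absurd (hv' a) hN
        · omega
    subst hi
    refine ⟨N + 1, (Pool.Agent.TH38.CX.main Y c rep hrep X (N + 1) 1 (by omega) a ?_ ?_ ?_).2 X'⟩
    · exact (not_ex_iff _ _).1 hN
    · intro i hi b
      obtain rfl : i = 0 := by omega
      refine Or.inr fun j hj => ?_
      rw [← exAt_iff]
      rcases Nat.lt_or_ge j N with h3 | h3
      · exact hmin j h3 0 b
      · obtain rfl : j = N := by omega
        exact hv' b
    · intro i hi _ b
      exact (hc i hi b).elim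

end

end Pool.Agent.L0h31.ZB
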